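import Mathlib
import Pool.Agent.H298R3.Opn.Count
import Pool.Agent.H298R3.Opn.Descent

set_option autoImplicit false

/-!
# Odd perfect numbers whose exponents, increased by one, have a common factor

Let `n ≥ 7` be odd.  For a prime `q` with `n ∣ a(q) + 1` the number `D(q) = 1 + q + ⋯ + q ^ (n - 1)`
divides the odd perfect number `N`, and the product of these numbers divides `N` as well.  A prime
factor of `D(q)` divides `n` or is `1` modulo a prime factor of `n`; the number of these primes is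
bounded, and each of them divides at most `B` of the numbers `D(q)`.  So most `D(q)` have all their
prime factors in the set `P` of the primes with free exponents.  The primes `q` with a large power of
`s ∈ P` dividing `D(q)` satisfy a strong gap principle, since `q ^ n = 1` modulo this power, and
the descent bound `N < (2 k) ^ (4 ^ k)` of Heath-Brown's type gives a bound for `k`.
-/

namespace Pool.Agent.Results.MP_f02ea4_nt.CommonFactorExponents
open Finset
open Pool.Agent.H298R3.Opn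

/-- `1 + q + ⋯ + q ^ (n - 1)` -/
def D (n q : ℕ) : ℕ := ∑ j ∈ range n, q ^ j

lemma D_mul {n q : ℕ} (hq : 1 ≤ q) : D n q * (q - 1) + 1 = q ^ n := by
  unfold D
  have h2 := geom_sum_mul_of_one_le hq n
  rw [h2]
  have : 1 ≤ q ^ n := Nat.one_le_pow _ _ hq
  omega

lemma D_pos {n q : ℕ} (hn : 0 < n) : 0 < D n q := by
  unfold D
  have : (1 : ℕ) ≤ ∑ j ∈ range n, q ^ j := by
    calc 1 = q ^ 0 := by simp
      _ ≤ _ := Finset.single_le_sum (f := fun j => q ^ j) (fun _ _ => Nat.zero_le _)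
        (Finset.mem_range.2 hn)
  omega

lemma D_gt {n q : ℕ} (hn : 2 ≤ n) : q ^ (n - 1) < D n q := by
  obtain ⟨k, rfl⟩ : ∃ k, n = k + 2 := ⟨n - 2, by omega⟩
  unfold D
  rw [Finset.sum_range_succ]
  have h1 := D_pos (n := k + 1) (q := q) (by omega)
  unfold D at h1
  have h2 : k + 2 - 1 = k + 1 := by omega
  rw [h2]
  omega

lemma D_dvd {n q a : ℕ} (hq : 2 ≤ q) (h : n ∣ a + 1) : D n q ∣ ∑ i ∈ range (a + 1), q ^ i := by
  obtain ⟨c, hc⟩ := h
  refine ⟨∑ i ∈ range c, (q ^ n) ^ i, ?_⟩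
  have h1 := geom_sum_mul_of_one_le (x := q) (by omega) (a + 1)
  have h4 := D_mul (n := n) (q := q) (by omega)
  have h6 := geom_sum_mul_of_one_le (x := q ^ n) (Nat.one_le_pow _ _ (by omega)) c
  have h5 : 0 < q - 1 := by omega
  apply Nat.eq_of_mul_eq_mul_right h5
  rw [h1, hc, pow_mul, ← h6]
  have h7 : q ^ n - 1 = D n q * (q - 1) := by omega
  rw [h7]
  ring

lemma D_odd {n q : ℕ} (hn : Odd n) (hq : Odd q) : Odd (D n q) := by
  have h1 : ∀ k : ℕ, (∑ i ∈ range k, q ^ i) % 2 = k % 2 := by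
    intro k
    induction k with
    | zero => simp
    | succ k ih =>
      rw [Finset.sum_range_succ, Nat.add_mod, ih]
      have : q ^ k % 2 = 1 := Nat.odd_iff.1 hq.pow
      rw [this]
      omega
  unfold D
  rw [Nat.odd_iff, h1]
  exact Nat.odd_iff.1 hn

lemma D_modEq {n q l : ℕ} (h : q ≡ 1 [MOD l]) : D n q ≡ n [MOD l] := by
  unfold D
  induction n with
  | zero => exact Nat.ModEq.refl _
  | succ k ih =>
    rw [Finset.sum_range_succ]
    have h2 := h.pow k
    rw [one_pow] at h2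
    exact ih.add h2

lemma pow_modEq {n q d : ℕ} (hq : 1 ≤ q) (hd : d ∣ D n q) : q ^ n ≡ 1 [MOD d] := by
  rw [← D_mul hq]
  have h1 : D n q * (q - 1) ≡ 0 [MOD d] := (Nat.modEq_zero_iff_dvd).2 (hd.mul_right _)
  simpa using h1.add_right 1

/-- prime factors of `D n q` -/
lemma prime_factor {n q s : ℕ} (hn : n ≠ 0) (hq : 1 ≤ q) (hs : s.Prime) (hd : s ∣ D n q) :
    s ∣ n ∨ ∃ l ∈ n.primeFactors, s ≡ 1 [MOD l] := by
  have : Fact s.Prime := ⟨hs⟩
  have h1 := pow_modEq hq hd
  have hxm : (q : ZMod s) ^ n = 1 := by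
    have := (ZMod.natCast_eq_natCast_iff _ _ _).2 h1
    simpa using this
  by_cases h2 : (q : ZMod s) = 1
  · left
    have h3 : q ≡ 1 [MOD s] := by
      refine (ZMod.natCast_eq_natCast_iff _ _ _).1 ?_
      simpa using h2
    have h4 := D_modEq (n := n) h3
    exact (Nat.modEq_zero_iff_dvd).1 (h4.symm.trans ((Nat.modEq_zero_iff_dvd).2 hd))
  · right
    have hord : orderOf (q : ZMod s) ∣ n := orderOf_dvd_of_pow_eq_one hxm
    have hord1 : orderOf (q : ZMod s) ≠ 1 := fun h => h2 (orderOf_eq_one_iff.1 h)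
    obtain ⟨l, hl, hlo⟩ := Nat.exists_prime_and_dvd hord1
    refine ⟨l, Nat.mem_primeFactors.2 ⟨hl, hlo.trans hord, hn⟩, ?_⟩
    have hx0 : (q : ZMod s) ≠ 0 := by
      intro h0
      rw [h0, zero_pow hn] at hxm
      exact zero_ne_one hxm
    have h3 : orderOf (q : ZMod s) ∣ s - 1 := ZMod.orderOf_dvd_card_sub_one hx0
    have h4 : l ∣ s - 1 := hlo.trans h3
    exact ((Nat.modEq_iff_dvd' hs.one_lt.le).2 h4).symm

/-! ### Gap principles -/

/-- the monomials `q ^ i * q' ^ j` -/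
lemma box {s v n A C q q' : ℕ} (hs : s.Prime) (hs2 : s ≠ 2) (hn : 0 < n) (hq : q.Prime)
    (hq' : q'.Prime) (hne : q ≠ q') (h1 : q ^ n ≡ 1 [MOD s ^ v]) (h2 : q' ^ n ≡ 1 [MOD s ^ v])
    (hlt : q ^ A * q' ^ C < s ^ v) : (A + 1) * (C + 1) ≤ n := by
  classical
  set f : ℕ × ℕ → ℕ := fun x => q ^ x.1 * q' ^ x.2 with hf
  have h3 : (((range (A + 1)) ×ˢ (range (C + 1))).image f).card = (A + 1) * (C + 1) := by
    rw [Finset.card_image_of_injective, Finset.card_product, Finset.card_range, Finset.card_range]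
    intro x y hxy
    simp only [hf] at hxy
    have e1 : ∀ x : ℕ × ℕ, (q ^ x.1 * q' ^ x.2).factorization q = x.1 := fun x => by
      rw [Nat.factorization_mul (pow_ne_zero _ hq.ne_zero) (pow_ne_zero _ hq'.ne_zero),
        Nat.factorization_pow, Nat.factorization_pow, hq.factorization, hq'.factorization]
      simp [hne]
    have e2 : ∀ x : ℕ × ℕ, (q ^ x.1 * q' ^ x.2).factorization q' = x.2 := fun x => by
      rw [Nat.factorization_mul (pow_ne_zero _ hq.ne_zero) (pow_ne_zero _ hq'.ne_zero),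
        Nat.factorization_pow, Nat.factorization_pow, hq.factorization, hq'.factorization]
      simp [hne.symm]
    ext
    · rw [← e1 x, hxy, e1 y]
    · rw [← e2 x, hxy, e2 y]
  rw [← h3]
  refine card_le_of_pow (v := v) hs hs2 hn _ (fun u hu => ?_)
  obtain ⟨⟨i, j⟩, hij, rfl⟩ := Finset.mem_image.1 hu
  rw [Finset.mem_product, Finset.mem_range, Finset.mem_range] at hij
  simp only [hf]
  simp only at hij
  constructor
  · refine lt_of_le_of_lt ?_ hlt
    exact Nat.mul_le_mul (Nat.pow_le_pow_right hq.pos (by omega))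
      (Nat.pow_le_pow_right hq'.pos (by omega))
  · have e1 : (q ^ i * q' ^ j) ^ n = (q ^ n) ^ i * (q' ^ n) ^ j := by ring
    rw [e1]
    simpa using (h1.pow i).mul (h2.pow j)

/-- the powers of `q` together with `q'` -/
lemma line {s v n q q' : ℕ} (hs : s.Prime) (hs2 : s ≠ 2) (hn : 0 < n) (hq : q.Prime)
    (hq' : q'.Prime) (hne : q ≠ q') (h1 : q ^ n ≡ 1 [MOD s ^ v]) (h2 : q' ^ n ≡ 1 [MOD s ^ v])
    (hlt : q ^ (n - 1) < s ^ v) : s ^ v ≤ q' := by
  classical
  by_contra hcon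
  push Not at hcon
  have hnot : q' ∉ (range n).image (fun j => q ^ j) := by
    intro h
    obtain ⟨j, -, hj⟩ := Finset.mem_image.1 h
    have hj' : q ^ j = q' := hj
    have h3 : (q ^ j).Prime := hj' ▸ hq'
    have h4 : j = 1 := (Nat.Prime.eq_one_of_pow h3)
    rw [h4, pow_one] at hj'
    exact hne hj'
  have hcard : (insert q' ((range n).image (fun j => q ^ j))).card = n + 1 := by
    rw [Finset.card_insert_of_notMem hnot, Finset.card_image_of_injective, Finset.card_range]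
    exact Nat.pow_right_injective hq.two_le
  have h5 := card_le_of_pow (v := v) hs hs2 hn (insert q' ((range n).image (fun j => q ^ j)))
    (fun u hu => ?_)
  · omega
  · rw [Finset.mem_insert] at hu
    rcases hu with rfl | hu
    · exact ⟨hcon, h2⟩
    · obtain ⟨j, hj, rfl⟩ := Finset.mem_image.1 hu
      rw [Finset.mem_range] at hj
      refine ⟨lt_of_le_of_lt (Nat.pow_le_pow_right hq.pos (by omega)) hlt, ?_⟩
      have e1 : (q ^ j) ^ n = (q ^ n) ^ j := by ring
      rw [e1]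
      simpa using h1.pow j

/-- the gap principle: two primes whose numbers `D` are divisible by a large power of `s` -/
lemma gap {s n m q q' a a' : ℕ} (hs : s.Prime) (hs2 : s ≠ 2) (hq : q.Prime)
    (hq' : q'.Prime) (hlt : q < q') (hm : 1 ≤ m) (hn : (m = 1 ∧ 7 ≤ n) ∨ 4 * m ^ 2 * 6 ^ m < n)
    (h1 : s ^ a ∣ D n q) (h2 : s ^ a' ∣ D n q') (h3 : q ^ (n - 1) < (s ^ a) ^ m)
    (h4 : q' ^ (n - 1) < (s ^ a') ^ m) : q ^ (6 ^ m) ≤ q' := by
  have hn0 : 0 < n := by rcases hn with h | h <;> omega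
  set b := min a a' with hb
  have e1 : q ^ n ≡ 1 [MOD s ^ b] :=
    pow_modEq hq.one_lt.le ((pow_dvd_pow s (min_le_left a a')).trans h1)
  have e2 : q' ^ n ≡ 1 [MOD s ^ b] :=
    pow_modEq hq'.one_lt.le ((pow_dvd_pow s (min_le_right a a')).trans h2)
  have e3 : q ^ (n - 1) < (s ^ b) ^ m := by
    rcases min_choice a a' with h | h
    · rw [hb, h]; exact h3
    · rw [hb, h]; exact lt_of_le_of_lt (Nat.pow_le_pow_left hlt.le _) h4
  rcases hn with ⟨rfl, h7⟩ | hn
  · rw [pow_one] at e3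
    have h5 := line hs hs2 hn0 hq hq' hlt.ne e1 e2 e3
    calc q ^ (6 ^ 1) ≤ q ^ (n - 1) := Nat.pow_le_pow_right hq.pos (by omega)
      _ ≤ s ^ b := e3.le
      _ ≤ q' := h5
  · by_contra hcon
    push Not at hcon
    set w := 6 ^ m with hw
    have hw0 : 0 < w := by positivity
    set A := (n - 1) / (2 * m) with hA
    set C := (n - 1) / (2 * m * w) with hC
    have hA1 : n ≤ 2 * m * (A + 1) := by
      have := Nat.lt_mul_div_succ (n - 1) (b := 2 * m) (by omega)
      rw [← hA] at this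
      omega
    have hC1 : n ≤ 2 * m * w * (C + 1) := by
      have := Nat.lt_mul_div_succ (n - 1) (b := 2 * m * w) (by positivity)
      rw [← hC] at this
      omega
    have hA2 : 2 * m * A ≤ n - 1 := Nat.mul_div_le _ _
    have hC2 : 2 * m * w * C ≤ n - 1 := Nat.mul_div_le _ _
    have h5 : q ^ A * q' ^ C < s ^ b := by
      have h6 : (q ^ A * q' ^ C) ^ m < (s ^ b) ^ m := by
        refine lt_of_le_of_lt ?_ e3
        calc (q ^ A * q' ^ C) ^ m ≤ (q ^ A * (q ^ w) ^ C) ^ m := by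
              gcongr
          _ = q ^ (m * A + m * w * C) := by
              rw [← pow_mul, ← pow_add, ← pow_mul]; congr 1; ring
          _ ≤ q ^ (n - 1) := by
              refine Nat.pow_le_pow_right hq.pos ?_
              have e4 : 2 * (m * A + m * w * C) = 2 * m * A + 2 * m * w * C := by ring
              omega
      exact lt_of_pow_lt_pow_left₀ m (Nat.zero_le _) h6
    have h6 := box hs hs2 hn0 hq hq' hlt.ne e1 e2 h5
    have h7 : n * n ≤ (2 * m * (A + 1)) * (2 * m * w * (C + 1)) := Nat.mul_le_mul hA1 hC1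
    have h8 : (2 * m * (A + 1)) * (2 * m * w * (C + 1)) = 4 * m ^ 2 * w * ((A + 1) * (C + 1)) := by
      ring
    rw [h8] at h7
    have h9 : 4 * m ^ 2 * w * ((A + 1) * (C + 1)) ≤ 4 * m ^ 2 * w * n := Nat.mul_le_mul_left _ h6
    have h10 : n ≤ 4 * m ^ 2 * w := Nat.le_of_mul_le_mul_right (h7.trans h9) hn0
    omega

/-- a set of primes with strong gaps has a large element -/
lemma growth (w : ℕ) : ∀ (t : ℕ) (R : Finset ℕ), R.card = t + 1 → (∀ q ∈ R, 3 ≤ q) →
    (∀ q ∈ R, ∀ q' ∈ R, q < q' → q ^ w ≤ q') → ∃ q ∈ R, 3 ^ (w ^ t) ≤ q := by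
  classical
  intro t
  induction t with
  | zero =>
    intro R hR h3 _
    obtain ⟨q, hq⟩ := Finset.card_pos.1 (by omega : 0 < R.card)
    exact ⟨q, hq, by simpa using h3 q hq⟩
  | succ t ih =>
    intro R hR h3 hgap
    have hne : R.Nonempty := Finset.card_pos.1 (by omega)
    set M := R.max' hne with hM
    have hMR : M ∈ R := R.max'_mem hne
    obtain ⟨q, hq, hq2⟩ := ih (R.erase M) (by rw [Finset.card_erase_of_mem hMR, hR]; omega)
      (fun q hq => h3 q (Finset.mem_of_mem_erase hq))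
      (fun q hq q' hq' => hgap q (Finset.mem_of_mem_erase hq) q' (Finset.mem_of_mem_erase hq'))
    have hlt : q < M := by
      refine lt_of_le_of_ne (R.le_max' q (Finset.mem_of_mem_erase hq)) ?_
      exact Finset.ne_of_mem_erase hq
    refine ⟨M, hMR, ?_⟩
    calc 3 ^ (w ^ (t + 1)) = (3 ^ (w ^ t)) ^ w := by rw [pow_succ, pow_mul]
      _ ≤ q ^ w := Nat.pow_le_pow_left hq2 w
      _ ≤ M := hgap q (Finset.mem_of_mem_erase hq) M hMR hlt

/-! ### The numerical part -/

lemma num_base : ∀ K : ℕ, 2 ≤ K → (10 * K) ^ (64 ^ K) ≤ 9 ^ (81 ^ K) := by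
  intro K hK
  induction K, hK using Nat.le_induction with
  | base =>
    have h1 : (20 : ℕ) ^ 64 ≤ 9 ^ 88 := by norm_num
    have e1 : ((10 * 2) ^ (64 ^ 2) : ℕ) = (20 ^ 64) ^ 64 := by
      rw [show (10 * 2 : ℕ) = 20 from rfl, show (64 ^ 2 : ℕ) = 64 * 64 from rfl, pow_mul]
    rw [e1]
    calc (20 ^ 64) ^ 64 ≤ (9 ^ 88) ^ 64 := Nat.pow_le_pow_left h1 _
      _ = 9 ^ (88 * 64) := (pow_mul 9 88 64).symm
      _ ≤ 9 ^ (81 ^ 2) := Nat.pow_le_pow_right (by omega) (by decide)
  | succ K hK ih =>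
    have h1 : (10 * (K + 1)) ^ 64 ≤ (10 * K) ^ 81 := by
      have h2 : 2 * (10 * (K + 1)) ≤ 3 * (10 * K) := by omega
      have h3 : (2 * (10 * (K + 1))) ^ 64 ≤ (3 * (10 * K)) ^ 64 := Nat.pow_le_pow_left h2 _
      rw [mul_pow, mul_pow 3] at h3
      have h4 : (3 : ℕ) ^ 64 ≤ 2 ^ 64 * 20 ^ 17 := by norm_num
      have h5 : (20 : ℕ) ^ 17 ≤ (10 * K) ^ 17 := Nat.pow_le_pow_left (by omega) _
      have h6 : 2 ^ 64 * (10 * (K + 1)) ^ 64 ≤ 2 ^ 64 * (10 * K) ^ 81 := by
        calc 2 ^ 64 * (10 * (K + 1)) ^ 64 ≤ 3 ^ 64 * (10 * K) ^ 64 := h3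
          _ ≤ (2 ^ 64 * 20 ^ 17) * (10 * K) ^ 64 := Nat.mul_le_mul_right _ h4
          _ ≤ (2 ^ 64 * (10 * K) ^ 17) * (10 * K) ^ 64 := by gcongr
          _ = _ := by rw [mul_assoc, ← pow_add]
      exact Nat.le_of_mul_le_mul_left h6 (by positivity)
    calc (10 * (K + 1)) ^ (64 ^ (K + 1)) = ((10 * (K + 1)) ^ 64) ^ (64 ^ K) := by
          rw [← pow_mul, pow_succ, mul_comm (64 ^ K) 64]
      _ ≤ ((10 * K) ^ 81) ^ (64 ^ K) := Nat.pow_le_pow_left h1 _
      _ = ((10 * K) ^ (64 ^ K)) ^ 81 := by rw [← pow_mul, ← pow_mul, mul_comm 81]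
      _ ≤ (9 ^ (81 ^ K)) ^ 81 := Nat.pow_le_pow_left ih _
      _ = _ := by rw [← pow_mul, ← pow_succ]

lemma num_base' (K : ℕ) (hK : 1 ≤ K) : (10 * K) ^ (64 ^ K) ≤ 9 ^ (81 ^ K) := by
  rcases Nat.lt_or_ge K 2 with h | h
  · obtain rfl : K = 1 := by omega
    norm_num
  · exact num_base K h

lemma num (K : ℕ) (hK : 1 ≤ K) : ∀ t, 4 * K ≤ t →
    (2 * (K + t)) ^ (4 ^ (K + t)) ≤ 9 ^ (6 ^ t) := by
  intro t ht
  induction t, ht using Nat.le_induction with
  | base =>
    have h1 := num_base' K hK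
    have e1 : 2 * (K + 4 * K) = 10 * K := by ring
    have e2 : 4 ^ (K + 4 * K) = 64 ^ K * 16 ^ K := by
      rw [← mul_pow, show K + 4 * K = 5 * K by ring, pow_mul]
      norm_num
    have e3 : 6 ^ (4 * K) = 81 ^ K * 16 ^ K := by
      rw [← mul_pow, pow_mul]
      norm_num
    rw [e1, e2, e3, pow_mul, pow_mul]
    exact Nat.pow_le_pow_left h1 _
  | succ t ht ih =>
    set x := 2 * (K + t) with hx
    have hx1 : 10 ≤ x := by omega
    have h1 : (x + 2) ^ 4 ≤ x ^ 6 := by
      have h2 : (x + 2) ^ 2 ≤ x ^ 3 := by nlinarith [sq_nonneg (x : ℤ), Nat.mul_le_mul hx1 hx1]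
      calc (x + 2) ^ 4 = ((x + 2) ^ 2) ^ 2 := by ring
        _ ≤ (x ^ 3) ^ 2 := Nat.pow_le_pow_left h2 2
        _ = _ := by ring
    have e1 : 2 * (K + (t + 1)) = x + 2 := by omega
    have e2 : 4 ^ (K + (t + 1)) = 4 * 4 ^ (K + t) := by
      rw [← add_assoc, pow_succ, mul_comm]
    rw [e1, e2, pow_mul]
    calc ((x + 2) ^ 4) ^ (4 ^ (K + t)) ≤ (x ^ 6) ^ (4 ^ (K + t)) := Nat.pow_le_pow_left h1 _
      _ = (x ^ (4 ^ (K + t))) ^ 6 := by rw [← pow_mul, ← pow_mul, mul_comm 6]
      _ ≤ (9 ^ (6 ^ t)) ^ 6 := Nat.pow_le_pow_left ih _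
      _ = _ := by rw [← pow_mul, ← pow_succ]

/-! ### The main argument -/

section main

variable {N n B : ℕ} {P U : Finset ℕ}

/-- the primes with a regular exponent -/
def Q (N : ℕ) (P U : Finset ℕ) : Finset ℕ := N.primeFactors.filter (fun q => q ∉ P ∧ q ∉ U)

/-- the bad primes -/
def Bad (n : ℕ) (P U : Finset ℕ) (s : ℕ) : Prop :=
  s ∣ n ∨ (s ∉ P ∧ (s ∈ U ∨ ∃ l ∈ n.primeFactors, s ≡ 1 [MOD l]))

lemma odd_of_mem (hodd : Odd N) {q : ℕ} (hq : q ∈ N.primeFactors) : Odd q :=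
  hodd.of_dvd_nat (Nat.dvd_of_mem_primeFactors hq)

lemma three_le_of_mem (hodd : Odd N) {q : ℕ} (hq : q ∈ N.primeFactors) : 3 ≤ q := by
  have h1 := (Nat.prime_of_mem_primeFactors hq).two_le
  have h2 := odd_of_mem hodd hq
  obtain ⟨c, hc⟩ := h2
  omega

lemma prod_dvd (hodd : Odd N) (hperf : ∑ d ∈ N.divisors, d = 2 * N) (hn : Odd n)
    (h1 : ∀ q ∈ N.primeFactors, q ∉ P → q ∉ U → n ∣ N.factorization q + 1) :
    ∏ q ∈ Q N P U, D n q ∣ N := by
  classical
  have hN0 : N ≠ 0 := by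
    rintro rfl
    exact absurd hodd (by decide)
  have hsub : Q N P U ⊆ N.primeFactors := Finset.filter_subset _ _
  have h3 : ∏ q ∈ Q N P U, D n q ∣ 2 * N := by
    rw [← hperf, Nat.sum_divisors hN0]
    refine (Finset.prod_dvd_prod_of_dvd _ _ (fun q hq => ?_)).trans
      (Finset.prod_dvd_prod_of_subset _ _ _ hsub)
    have hq' := Finset.mem_filter.1 hq
    exact D_dvd (Nat.prime_of_mem_primeFactors hq'.1).two_le (h1 q hq'.1 hq'.2.1 hq'.2.2)
  have h4 : Nat.Coprime (∏ q ∈ Q N P U, D n q) 2 := by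
    apply Nat.Coprime.prod_left
    intro q hq
    exact Nat.Coprime.symm ((Nat.coprime_two_left).2 (D_odd hn (odd_of_mem hodd (hsub hq))))
  exact h4.dvd_of_dvd_mul_left h3

lemma card_dvd_le (hodd : Odd N) (hperf : ∑ d ∈ N.divisors, d = 2 * N) (hn : Odd n)
    (h1 : ∀ q ∈ N.primeFactors, q ∉ P → q ∉ U → n ∣ N.factorization q + 1)
    {s : ℕ} (hs : s.Prime) (hB : N.factorization s ≤ B) :
    ((Q N P U).filter (fun q => s ∣ D n q)).card ≤ B := by
  classical
  have hN0 : N ≠ 0 := by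
    rintro rfl
    exact absurd hodd (by decide)
  have hn0 : 0 < n := hn.pos
  have h2 := (Nat.factorization_le_iff_dvd (Finset.prod_ne_zero_iff.2
    (fun q _ => (D_pos (n := n) (q := q) hn0).ne')) hN0).2 (prod_dvd hodd hperf hn h1) s
  rw [Nat.factorization_prod (fun q _ => (D_pos hn0).ne'), Finsupp.coe_finsetSum,
    Finset.sum_apply] at h2
  refine le_trans ?_ (h2.trans hB)
  rw [Finset.card_eq_sum_ones]
  refine le_trans (Finset.sum_le_sum (fun q hq => ?_))
    (Finset.sum_le_sum_of_subset (Finset.filter_subset (fun q => s ∣ D n q) (Q N P U)))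
  rw [Finset.mem_filter] at hq
  exact hs.factorization_pos_of_dvd (D_pos hn0).ne' hq.2

lemma card_modEq_le (hodd : Odd N) (hperf : ∑ d ∈ N.divisors, d = 2 * N) (hn : Odd n)
    (h1 : ∀ q ∈ N.primeFactors, q ∉ P → q ∉ U → n ∣ N.factorization q + 1)
    (h2 : ∀ q ∈ N.primeFactors, Bad n P U q → N.factorization q ≤ B)
    {l : ℕ} (hl : l ∈ n.primeFactors) :
    ((Q N P U).filter (fun q => q ≡ 1 [MOD l])).card ≤ B := by
  classical
  have hlp := Nat.prime_of_mem_primeFactors hl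
  have hln := Nat.dvd_of_mem_primeFactors hl
  have hB : N.factorization l ≤ B := by
    by_cases h : l ∈ N.primeFactors
    · exact h2 l h (Or.inl hln)
    · rw [← Nat.support_factorization, Finsupp.notMem_support_iff] at h
      omega
  refine le_trans (Finset.card_le_card ?_) (card_dvd_le (P := P) (U := U) hodd hperf hn h1 hlp hB)
  intro q hq
  rw [Finset.mem_filter] at hq ⊢
  refine ⟨hq.1, ?_⟩
  exact (Nat.modEq_zero_iff_dvd).1 ((D_modEq hq.2).trans ((Nat.modEq_zero_iff_dvd).2 hln))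

/-- every prime but few has all prime factors of `D n q` in `P` -/
lemma count (hodd : Odd N) (hperf : ∑ d ∈ N.divisors, d = 2 * N) (hn : Odd n)
    (h1 : ∀ q ∈ N.primeFactors, q ∉ P → q ∉ U → n ∣ N.factorization q + 1)
    (h2 : ∀ q ∈ N.primeFactors, Bad n P U q → N.factorization q ≤ B) :
    ∃ R ⊆ Q N P U, (∀ q ∈ R, ∀ s ∈ (D n q).primeFactors, s ∈ P) ∧
      N.primeFactors.card ≤ (P.card + U.card +
        B * (U.card + n.primeFactors.card * (B + 1))) + R.card := by
  classical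
  have hN0 : N ≠ 0 := by
    rintro rfl
    exact absurd hodd (by decide)
  have hn0 : 0 < n := hn.pos
  set T := N.primeFactors.filter (fun s => Bad n P U s) with hT
  set R := (Q N P U).filter (fun q => ∀ s ∈ T, ¬ s ∣ D n q) with hR
  refine ⟨R, Finset.filter_subset _ _, ?_, ?_⟩
  · intro q hq s hs
    obtain ⟨hqQ, hqR⟩ := Finset.mem_filter.1 hq
    have hsp := Nat.prime_of_mem_primeFactors hs
    have hsd := Nat.dvd_of_mem_primeFactors hs
    have hsN : s ∈ N.primeFactors := Nat.mem_primeFactors.2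
      ⟨hsp, (hsd.trans (Finset.dvd_prod_of_mem (fun q => D n q) hqQ)).trans
        (prod_dvd hodd hperf hn h1), hN0⟩
    have hqp := Nat.prime_of_mem_primeFactors (Finset.mem_filter.1 hqQ).1
    by_contra hsP
    refine hqR s (Finset.mem_filter.2 ⟨hsN, ?_⟩) hsd
    rcases prime_factor hn0.ne' hqp.one_lt.le hsp hsd with h | h
    · exact Or.inl h
    · exact Or.inr ⟨hsP, Or.inr h⟩
  · have hTc : T.card ≤ n.primeFactors.card + (U.card + n.primeFactors.card * B) := by
      have hsub : T ⊆ n.primeFactors ∪ (U ∪ n.primeFactors.biUnion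
          (fun l => (Q N P U).filter (fun q => q ≡ 1 [MOD l]))) := by
        intro s hs
        obtain ⟨hsN, hsB⟩ := Finset.mem_filter.1 hs
        rw [Finset.mem_union, Finset.mem_union, Finset.mem_biUnion]
        rcases hsB with h | ⟨hsP, h⟩
        · exact Or.inl (Nat.mem_primeFactors.2 ⟨Nat.prime_of_mem_primeFactors hsN, h, hn0.ne'⟩)
        · by_cases hsU : s ∈ U
          · exact Or.inr (Or.inl hsU)
          · rcases h with h | ⟨l, hl, h⟩
            · exact absurd h hsU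
            · exact Or.inr (Or.inr ⟨l, hl, Finset.mem_filter.2
                ⟨Finset.mem_filter.2 ⟨hsN, hsP, hsU⟩, h⟩⟩)
      refine (Finset.card_le_card hsub).trans ((Finset.card_union_le _ _).trans ?_)
      refine Nat.add_le_add_left ((Finset.card_union_le _ _).trans ?_) _
      refine Nat.add_le_add_left ?_ _
      exact Finset.card_biUnion_le_card_mul _ _ _ (fun l hl => card_modEq_le hodd hperf hn h1 h2 hl)
    have hbad : (T.biUnion (fun s => (Q N P U).filter (fun q => s ∣ D n q))).card ≤ T.card * B := by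
      refine Finset.card_biUnion_le_card_mul _ _ _ (fun s hs => ?_)
      obtain ⟨hsN, hsB⟩ := Finset.mem_filter.1 hs
      exact card_dvd_le hodd hperf hn h1 (Nat.prime_of_mem_primeFactors hsN) (h2 s hsN hsB)
    have hQ : Q N P U ⊆ T.biUnion (fun s => (Q N P U).filter (fun q => s ∣ D n q)) ∪ R := by
      intro q hq
      rw [Finset.mem_union, Finset.mem_biUnion]
      by_cases h : ∃ s ∈ T, s ∣ D n q
      · obtain ⟨s, hs, hsd⟩ := h
        exact Or.inl ⟨s, hs, Finset.mem_filter.2 ⟨hq, hsd⟩⟩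
      · push Not at h
        exact Or.inr (Finset.mem_filter.2 ⟨hq, h⟩)
    have hall : N.primeFactors ⊆ (P ∪ U) ∪ Q N P U := by
      intro q hq
      rw [Finset.mem_union, Finset.mem_union]
      by_cases hP : q ∈ P
      · exact Or.inl (Or.inl hP)
      · by_cases hU : q ∈ U
        · exact Or.inl (Or.inr hU)
        · exact Or.inr (Finset.mem_filter.2 ⟨hq, hP, hU⟩)
    have e1 := (Finset.card_le_card hall).trans (Finset.card_union_le _ _)
    have e2 := Finset.card_union_le P U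
    have e3 := (Finset.card_le_card hQ).trans (Finset.card_union_le _ _)
    have e4 : T.card * B ≤ B * (U.card + n.primeFactors.card * (B + 1)) := by
      rw [mul_comm]
      refine Nat.mul_le_mul_left _ (hTc.trans (le_of_eq ?_))
      ring
    omega

/-- the class of a prime -/
lemma exists_class (hn : 7 ≤ n) (hP : P.Nonempty) {q : ℕ} (hq : 0 < q)
    (hqP : ∀ s ∈ (D n q).primeFactors, s ∈ P) :
    ∃ s, (s ∈ P ∧ s.Prime ∧ s ∣ D n q) ∧
      q ^ (n - 1) < (s ^ ((D n q).factorization s)) ^ P.card := by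
  classical
  have hD0 : D n q ≠ 0 := (D_pos (by omega)).ne'
  have hgt := D_gt (n := n) (q := q) (by omega)
  by_contra hcon
  push Not at hcon
  have h1 : (D n q) ^ P.card ≤ (q ^ (n - 1)) ^ P.card := by
    have e1 : D n q = ∏ s ∈ (D n q).primeFactors, s ^ ((D n q).factorization s) := by
      conv_lhs => rw [← Nat.prod_factorization_pow_eq_self hD0]
      rfl
    have hle : ∀ s ∈ (D n q).primeFactors,
        (s ^ ((D n q).factorization s)) ^ P.card ≤ q ^ (n - 1) := fun s hs =>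
      hcon s ⟨hqP s hs, Nat.prime_of_mem_primeFactors hs, Nat.dvd_of_mem_primeFactors hs⟩
    have e2 : (D n q) ^ P.card =
        ∏ s ∈ (D n q).primeFactors, (s ^ ((D n q).factorization s)) ^ P.card := by
      rw [Finset.prod_pow, ← e1]
    rw [e2]
    refine (Finset.prod_le_prod' hle).trans ?_
    rw [Finset.prod_const]
    exact Nat.pow_le_pow_right (Nat.one_le_pow _ _ hq)
      (Finset.card_le_card (fun s hs => hqP s hs))
  have h2 : (q ^ (n - 1)) ^ P.card < (D n q) ^ P.card :=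
    Nat.pow_lt_pow_left hgt (Finset.card_pos.2 hP).ne'
  omega

/-- the bound for the number of prime factors -/
theorem bound (hodd : Odd N) (hperf : ∑ d ∈ N.divisors, d = 2 * N) (hn : Odd n) (hP : P.Nonempty)
    (hnP : (P.card = 1 ∧ 7 ≤ n) ∨ 4 * P.card ^ 2 * 6 ^ P.card < n)
    (h1 : ∀ q ∈ N.primeFactors, q ∉ P → q ∉ U → n ∣ N.factorization q + 1)
    (h2 : ∀ q ∈ N.primeFactors, Bad n P U q → N.factorization q ≤ B) :
    N.primeFactors.card <
      5 * (P.card + U.card + B * (U.card + n.primeFactors.card * (B + 1))) := by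
  classical
  have hN0 : N ≠ 0 := by
    rintro rfl
    exact absurd hodd (by decide)
  have hm : 1 ≤ P.card := Finset.card_pos.2 hP
  have h6n : 6 ^ P.card ≤ n - 1 := by
    rcases hnP with ⟨h, h7⟩ | h
    · rw [h]; omega
    · have : 1 * 6 ^ P.card ≤ 4 * P.card ^ 2 * 6 ^ P.card :=
        Nat.mul_le_mul_right _ (by nlinarith)
      omega
  have h7n : 7 ≤ n := by
    have : 6 ^ 1 ≤ 6 ^ P.card := Nat.pow_le_pow_right (by norm_num) hm
    omega
  set K := P.card + U.card + B * (U.card + n.primeFactors.card * (B + 1)) with hK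
  have hK1 : 1 ≤ K := by omega
  obtain ⟨R, hRQ, hRP, hcard⟩ := count hodd hperf hn h1 h2
  by_contra hcon
  push Not at hcon
  have ht : 4 * K ≤ R.card := by omega
  have hRN : ∀ q ∈ R, q ∈ N.primeFactors ∧ q ∉ P ∧ q ∉ U := fun q hq =>
    Finset.mem_filter.1 (hRQ hq)
  have hRp : ∀ q ∈ R, q.Prime := fun q hq => Nat.prime_of_mem_primeFactors (hRN q hq).1
  have hR3 : ∀ q ∈ R, 3 ≤ q := fun q hq => three_le_of_mem hodd (hRN q hq).1
  -- the classes
  have hcl : ∀ q : ℕ, ∃ s, q ∈ R → ((s ∈ P ∧ s.Prime ∧ s ∣ D n q) ∧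
      q ^ (n - 1) < (s ^ ((D n q).factorization s)) ^ P.card) := by
    intro q
    by_cases hq : q ∈ R
    · obtain ⟨s, hs⟩ := exists_class h7n hP (hRp q hq).pos (hRP q hq)
      exact ⟨s, fun _ => hs⟩
    · exact ⟨0, fun h => absurd h hq⟩
  choose c hc using hcl
  have hfib : ∃ s ∈ P, R.card ≤ P.card * (R.filter (fun q => c q = s)).card := by
    by_contra hcon
    push Not at hcon
    have e1 : R.card = ∑ s ∈ P, (R.filter (fun q => c q = s)).card :=
      Finset.card_eq_sum_card_fiberwise (fun q hq => (hc q hq).1.1)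
    have e2 : ∑ s ∈ P, P.card * (R.filter (fun q => c q = s)).card < ∑ s ∈ P, R.card :=
      Finset.sum_lt_sum_of_nonempty hP hcon
    rw [← Finset.mul_sum, ← e1, Finset.sum_const, smul_eq_mul] at e2
    omega
  obtain ⟨s, hsP, hs⟩ := hfib
  set F := R.filter (fun q => c q = s) with hF
  have hF0 : 0 < F.card := by
    rcases Nat.eq_zero_or_pos F.card with h | h
    · rw [h] at hs; omega
    · exact h
  obtain ⟨j, hj⟩ : ∃ j, F.card = j + 1 := ⟨F.card - 1, by omega⟩
  have hFR : ∀ q ∈ F, q ∈ R ∧ c q = s := fun q hq => Finset.mem_filter.1 hq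
  have hsprime : s.Prime ∧ s ≠ 2 := by
    obtain ⟨q, hq⟩ := Finset.card_pos.1 hF0
    have h3 := hc q (hFR q hq).1
    rw [(hFR q hq).2] at h3
    refine ⟨h3.1.2.1, ?_⟩
    rintro rfl
    have h4 := D_odd hn (odd_of_mem hodd (hRN q (hFR q hq).1).1)
    exact (Nat.not_even_iff_odd.2 h4) (even_iff_two_dvd.2 h3.1.2.2)
  obtain ⟨q, hq, hqbig⟩ := growth (6 ^ P.card) j F hj (fun q hq => hR3 q (hFR q hq).1) (by
    intro q hq q' hq' hlt
    have h3 := (hc q (hFR q hq).1).2
    have h4 := (hc q' (hFR q' hq').1).2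
    rw [(hFR q hq).2] at h3
    rw [(hFR q' hq').2] at h4
    exact gap hsprime.1 hsprime.2 (hRp q (hFR q hq).1) (hRp q' (hFR q' hq').1) hlt hm hnP
      (Nat.ordProj_dvd _ _) (Nat.ordProj_dvd _ _) h3 h4)
  -- the lower bound for `N`
  have hqR := (hFR q hq).1
  have hqN := hRN q hqR
  have hqp := hRp q hqR
  have hdvd : D n q * q ^ (n - 1) ∣ N := by
    have hcop : Nat.Coprime (D n q) (q ^ (n - 1)) := by
      refine Nat.Coprime.pow_right _ ?_
      refine ((Nat.Prime.coprime_iff_not_dvd hqp).2 (fun hdv => ?_)).symm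
      have h5 := pow_modEq (n := n) hqp.one_lt.le hdv
      have h6 : q ^ n ≡ 0 [MOD q] :=
        (Nat.modEq_zero_iff_dvd).2 (dvd_pow_self q (by omega))
      have h8 : q ∣ 1 := (Nat.modEq_zero_iff_dvd).1 (h5.symm.trans h6)
      exact hqp.one_lt.ne' (Nat.dvd_one.1 h8)
    refine hcop.mul_dvd_of_dvd_of_dvd ?_ ?_
    · exact (Finset.dvd_prod_of_mem (fun q => D n q) (hRQ hqR)).trans (prod_dvd hodd hperf hn h1)
    · have h5 : n ≤ N.factorization q + 1 :=
        Nat.le_of_dvd (Nat.succ_pos _) (h1 q hqN.1 hqN.2.1 hqN.2.2)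
      exact (pow_dvd_pow q (by omega)).trans (Nat.ordProj_dvd N q)
  have hbig : 9 ^ (6 ^ R.card) ≤ N := by
    calc 9 ^ (6 ^ R.card) ≤ 9 ^ (6 ^ (P.card * (j + 1))) := by
          refine Nat.pow_le_pow_right (by norm_num) (Nat.pow_le_pow_right (by norm_num) ?_)
          rw [← hj]; exact hs
      _ = (3 ^ ((6 ^ P.card) ^ j)) ^ (2 * 6 ^ P.card) := by
          rw [← pow_mul, show (9 : ℕ) = 3 ^ 2 by norm_num, ← pow_mul, pow_mul 6, pow_succ]
          congr 1; ring
      _ ≤ q ^ (2 * 6 ^ P.card) := Nat.pow_le_pow_left hqbig _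
      _ ≤ q ^ ((n - 1) + (n - 1)) := Nat.pow_le_pow_right hqp.pos (by omega)
      _ = q ^ (n - 1) * q ^ (n - 1) := pow_add _ _ _
      _ ≤ D n q * q ^ (n - 1) := Nat.mul_le_mul_right _ (D_gt (by omega)).le
      _ ≤ N := Nat.le_of_dvd (Nat.pos_of_ne_zero hN0) hdvd
  have hlow := opn_bound N hodd hperf
  have hup : (2 * N.primeFactors.card) ^ (4 ^ N.primeFactors.card) ≤ 9 ^ (6 ^ R.card) := by
    refine le_trans ?_ (num K hK1 R.card ht)
    calc (2 * N.primeFactors.card) ^ (4 ^ N.primeFactors.card)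
        ≤ (2 * (K + R.card)) ^ (4 ^ N.primeFactors.card) := Nat.pow_le_pow_left (by omega) _
      _ ≤ _ := Nat.pow_le_pow_right (by omega) (Nat.pow_le_pow_right (by norm_num) hcard)
  omega

end main

/-- **Main theorem.**
Let `N` be an odd perfect number, `P` a nonempty finite set (the primes with a free exponent),
`U` a finite set (the exceptional primes), and `n` an odd number such that `n ≥ 7` if `#P = 1` and
`n > 4 (#P) ^ 2 6 ^ #P` if `#P ≥ 2`.  Suppose that `n ∣ v_q(N) + 1` for every prime `q ∣ N`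
outside `P ∪ U`, and that `v_q(N) ≤ B` for every prime `q ∣ N` such that `q ∣ n`, or `q ∉ P` and
(`q ∈ U` or `q ≡ 1` modulo a prime factor of `n`).  Then
`ω(N) < 5 K` and `N < (10 K) ^ (4 ^ (5 K))`, where `K = #P + #U + B (#U + ω(n) (B + 1))`.
In particular, for given `n`, `#P`, `#U` and `B` there are only finitely many such `N`. -/
theorem result (N n B : ℕ) (P U : Finset ℕ) (hodd : Odd N) (hperf : N.Perfect) (hn : Odd n)
    (hP : P.Nonempty) (hnP : (P.card = 1 ∧ 7 ≤ n) ∨ 4 * P.card ^ 2 * 6 ^ P.card < n)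
    (h1 : ∀ q ∈ N.primeFactors, q ∉ P → q ∉ U → n ∣ N.factorization q + 1)
    (h2 : ∀ q ∈ N.primeFactors,
      (q ∣ n ∨ (q ∉ P ∧ (q ∈ U ∨ ∃ l ∈ n.primeFactors, q ≡ 1 [MOD l]))) →
      N.factorization q ≤ B) :
    N.primeFactors.card <
      5 * (P.card + U.card + B * (U.card + n.primeFactors.card * (B + 1))) ∧
    N < (10 * (P.card + U.card + B * (U.card + n.primeFactors.card * (B + 1)))) ^
      (4 ^ (5 * (P.card + U.card + B * (U.card + n.primeFactors.card * (B + 1))))) := by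
  have hperf' : ∑ d ∈ N.divisors, d = 2 * N :=
    (Nat.perfect_iff_sum_divisors_eq_two_mul hperf.2).1 hperf
  have h3 := bound hodd hperf' hn hP hnP h1 h2
  refine ⟨h3, (opn_bound N hodd hperf').trans_le ?_⟩
  set K := P.card + U.card + B * (U.card + n.primeFactors.card * (B + 1)) with hK
  calc (2 * N.primeFactors.card) ^ (4 ^ N.primeFactors.card)
      ≤ (10 * K) ^ (4 ^ N.primeFactors.card) := Nat.pow_le_pow_left (by omega) _
    _ ≤ _ := Nat.pow_le_pow_right (by omega) (Nat.pow_le_pow_right (by norm_num) h3.le)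

end Pool.Agent.Results.MP_f02ea4_nt.CommonFactorExponents
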