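import Mathlib
import Pool.Agent.W137.Count

set_option autoImplicit false

/-!
# The number of odd perfect numbers up to `x`

By Wirsing's theorem there are at most `x ^ (W / log log x)` perfect numbers up to `x`, for some
constant `W`.  Here it is shown that for odd perfect numbers every constant
`W > (log 2) / 2 = 0.3465...` is admissible.

An odd perfect number `N ≤ x` is described by the exponents of its primes up to
`y = (log x) ^ t`, by its smallest prime and its exponent, and by the list of the exponents of the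
other primes in a certain order: if `a` is the product of the prime powers already described, the
next prime is a prime factor of `σ(a)` which does not divide `2 a`.  All exponents but one are even,
their sum is at most `log x / log y`, and there are at most `2 ^ m` lists of positive integers
with sum at most `m`.
-/

namespace Pool.Agent.Results.MP_f02ea4_nt.CountingFunction
open Finset Filter
open Pool.Agent.W137.Count

lemma natlog_le {y x : ℕ} (hy : 2 ≤ y) (hx : 1 ≤ x) :
    (Nat.log y x : ℝ) * Real.log y ≤ Real.log x := by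
  have h1 : y ^ Nat.log y x ≤ x := Nat.pow_log_le_self y (by omega)
  have h2 : ((y : ℝ)) ^ Nat.log y x ≤ x := by exact_mod_cast h1
  have h3 : (0 : ℝ) < (y : ℝ) ^ Nat.log y x := by positivity
  have h4 := Real.log_le_log h3 h2
  rwa [Real.log_pow] at h4

/-- the error term is small -/
lemma error (t ε : ℝ) (ht0 : 0 < t) (ht1 : t < 1) (hε : 0 < ε) :
    ∀ᶠ L : ℝ in atTop, (Real.log 2 / 2 + (L ^ t + 5) * Real.log (5 * L)) * Real.log L ≤
      ε / 2 * L := by
  have h1 := isLittleO_log_rpow_rpow_atTop (2 : ℝ) (show 0 < 1 - t by linarith)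
  have h2 := h1.bound (show 0 < ε / 60 by positivity)
  filter_upwards [h2, eventually_ge_atTop (Real.exp 2), eventually_ge_atTop 5] with L hL hL2 hL5
  have hL0 : 0 < L := by linarith
  have hlog : 2 ≤ Real.log L := (Real.le_log_iff_exp_le hL0).2 hL2
  set l := Real.log L with hl
  have e1 : ‖l ^ (2 : ℝ)‖ = l ^ 2 := by
    rw [Real.norm_of_nonneg (by positivity)]
    norm_cast
  have e2 : ‖L ^ (1 - t)‖ = L ^ (1 - t) := Real.norm_of_nonneg (by positivity)
  rw [e1, e2] at hL
  have h5 : Real.log (5 * L) ≤ 2 * l := by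
    rw [Real.log_mul (by norm_num) (by linarith)]
    have : Real.log 5 ≤ l := Real.log_le_log (by norm_num) hL5
    linarith
  have hlt : Real.log 2 < 1 := by have := Real.log_two_lt_d9; linarith
  have hLt : 0 < L ^ t := Real.rpow_pos_of_pos hL0 t
  have hprod : L ^ t * L ^ (1 - t) = L := by
    rw [← Real.rpow_add hL0]; norm_num
  have h6 : L ^ t * l ^ 2 ≤ ε / 60 * L := by
    calc L ^ t * l ^ 2 ≤ L ^ t * (ε / 60 * L ^ (1 - t)) := mul_le_mul_of_nonneg_left hL hLt.le
      _ = ε / 60 * (L ^ t * L ^ (1 - t)) := by ring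
      _ = ε / 60 * L := by rw [hprod]
  have hLt1 : 1 ≤ L ^ t := Real.one_le_rpow (by linarith) ht0.le
  have h7 : (L ^ t + 5) * Real.log (5 * L) ≤ 6 * L ^ t * (2 * l) := by
    refine mul_le_mul (by linarith) h5 ?_ (by positivity)
    exact Real.log_nonneg (by linarith)
  calc (Real.log 2 / 2 + (L ^ t + 5) * Real.log (5 * L)) * l
      ≤ (L ^ t * l + 6 * L ^ t * (2 * l)) * l := by
        refine mul_le_mul_of_nonneg_right ?_ (by linarith)
        nlinarith
    _ = 13 * (L ^ t * l ^ 2) := by ring
    _ ≤ 13 * (ε / 60 * L) := by linarith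
    _ ≤ ε / 2 * L := by nlinarith

/-- **Main theorem.** For every `ε > 0` and all large `x` there are at most
`x ^ (((log 2) / 2 + ε) / log log x)` odd perfect numbers up to `x`. -/
theorem result (ε : ℝ) (hε : 0 < ε) :
    ∃ x₀ : ℕ, ∀ x : ℕ, x₀ ≤ x → ({N : ℕ | N ≤ x ∧ Odd N ∧ N.Perfect}.ncard : ℝ) ≤
      (x : ℝ) ^ ((Real.log 2 / 2 + ε) / Real.log (Real.log x)) := by
  have hl2 : 0 < Real.log 2 := Real.log_pos (by norm_num)
  set c₀ := Real.log 2 / 2 with hc₀
  have hc0 : 0 < c₀ := by positivity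
  set t := c₀ / (c₀ + ε / 2) with ht
  have ht0 : 0 < t := by positivity
  have ht1 : t < 1 := by
    rw [ht, div_lt_one (by positivity)]
    linarith
  have hct : c₀ / t = c₀ + ε / 2 := by
    rw [ht]; field_simp
  have hlim : Tendsto (fun x : ℕ => Real.log (x : ℝ)) atTop atTop :=
    Real.tendsto_log_atTop.comp tendsto_natCast_atTop_atTop
  have hloglim : Tendsto (fun L : ℝ => Real.log L) atTop atTop := Real.tendsto_log_atTop
  have hpowlim : Tendsto (fun L : ℝ => L ^ t) atTop atTop := tendsto_rpow_atTop ht0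
  have hev : ∀ᶠ x : ℕ in atTop, ({N : ℕ | N ≤ x ∧ Odd N ∧ N.Perfect}.ncard : ℝ) ≤
      (x : ℝ) ^ ((c₀ + ε) / Real.log (Real.log x)) := by
    filter_upwards [hlim.eventually (error t ε ht0 ht1 hε),
      hlim.eventually (eventually_ge_atTop 5),
      hlim.eventually (hloglim.eventually (eventually_ge_atTop (max 1 (1 / t)))),
      hlim.eventually (hpowlim.eventually (eventually_ge_atTop 2)),
      eventually_ge_atTop 2] with x herr hL5 hll hpow hx2
    set L := Real.log (x : ℝ) with hL
    have hL0 : 0 < L := by linarith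
    have hx0 : (0 : ℝ) < x := by exact_mod_cast (by omega : 0 < x)
    set l := Real.log L with hl
    have hl1 : 1 ≤ l := (le_max_left _ _).trans hll
    have hlt : 1 / t ≤ l := (le_max_right _ _).trans hll
    have hl0 : 0 < l := by linarith
    set y := ⌈L ^ t⌉₊ with hy
    have hyL : L ^ t ≤ y := Nat.le_ceil _
    have hyU : (y : ℝ) ≤ L ^ t + 1 := (Nat.ceil_lt_add_one (by linarith)).le
    have hy2 : 2 ≤ y := by
      have : (2 : ℝ) ≤ y := hpow.trans hyL
      exact_mod_cast this
    have hlogy : t * l ≤ Real.log y := by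
      rw [hl, ← Real.log_rpow hL0]
      exact Real.log_le_log (Real.rpow_pos_of_pos hL0 t) hyL
    -- the set is `V x`
    have hset : {N : ℕ | N ≤ x ∧ Odd N ∧ N.Perfect} = (V x : Set ℕ) := by
      ext N
      rw [Finset.mem_coe, mem_V]
      constructor
      · rintro ⟨h1, h2, h3⟩
        exact ⟨h1, h2, (Nat.perfect_iff_sum_divisors_eq_two_mul h3.2).1 h3⟩
      · rintro ⟨h1, h2, h3⟩
        have h4 : 0 < N := h2.pos
        exact ⟨h1, h2, (Nat.perfect_iff_sum_divisors_eq_two_mul h4).2 h3⟩
    rw [hset, Set.ncard_coe_finset]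
    have hmain := main x y hy2
    set k := Nat.log y x with hk
    set A := Nat.log 2 x with hA
    set m := (k + 1) / 2 with hm
    -- sizes
    have hkL : (k : ℝ) * (t * l) ≤ L := by
      calc (k : ℝ) * (t * l) ≤ k * Real.log y := by gcongr
        _ ≤ L := natlog_le hy2 (by omega)
    have hkL' : (k : ℝ) ≤ L := by
      have h1 : 1 ≤ t * l := by
        have := mul_le_mul_of_nonneg_left hlt ht0.le
        rwa [mul_one_div_cancel ht0.ne'] at this
      have h2 : (k : ℝ) * 1 ≤ k * (t * l) := by gcongr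
      linarith
    have hAL : (A : ℝ) ≤ 2 * L := by
      have h1 : (A : ℝ) * Real.log 2 ≤ L := natlog_le (le_refl 2) (by omega)
      have h2 : (1 / 2 : ℝ) ≤ Real.log 2 := by have := Real.log_two_gt_d9; linarith
      have h3 : (A : ℝ) * (1 / 2) ≤ A * Real.log 2 := by gcongr
      linarith
    have hmk : (m : ℝ) ≤ (k + 1) / 2 := by
      have h1 : 2 * m ≤ k + 1 := by omega
      have h2 : (2 : ℝ) * m ≤ k + 1 := by exact_mod_cast h1
      linarith
    have hVpos : ((V x).card : ℝ) ≤ ((m : ℝ) + 1) * 2 ^ m *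
        (((A : ℝ) + 1) ^ (y + 1) * ((2 * A + 1) * (A + 1))) := by
      exact_mod_cast hmain
    -- bound by powers of `5 L`
    have h5L : 1 ≤ 5 * L := by linarith
    have hb1 : (m : ℝ) + 1 ≤ 5 * L := by linarith
    have hb2 : (A : ℝ) + 1 ≤ 5 * L := by linarith
    have hb3 : 2 * (A : ℝ) + 1 ≤ 5 * L := by linarith
    have hV2 : ((V x).card : ℝ) ≤ 2 ^ m * (5 * L) ^ (y + 4) := by
      refine hVpos.trans ?_
      calc ((m : ℝ) + 1) * 2 ^ m * (((A : ℝ) + 1) ^ (y + 1) * ((2 * A + 1) * (A + 1)))
          ≤ (5 * L) * 2 ^ m * ((5 * L) ^ (y + 1) * ((5 * L) * (5 * L))) := by gcongr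
        _ = 2 ^ m * (5 * L) ^ (y + 4) := by ring
    have hexp : ((V x).card : ℝ) ≤ Real.exp (m * Real.log 2 + (y + 4) * Real.log (5 * L)) := by
      refine hV2.trans (le_of_eq ?_)
      have h4 : ((y : ℝ) + 4) = ((y + 4 : ℕ) : ℝ) := by push_cast; ring
      rw [h4, Real.exp_add, Real.exp_nat_mul, Real.exp_nat_mul, Real.exp_log (by norm_num),
        Real.exp_log (by linarith)]
    refine hexp.trans ?_
    rw [Real.rpow_def_of_pos hx0]
    refine Real.exp_le_exp.2 ?_
    have hlog5 : 0 ≤ Real.log (5 * L) := Real.log_nonneg h5L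
    have hle1 : (m : ℝ) * Real.log 2 ≤ c₀ * k + c₀ := by
      calc (m : ℝ) * Real.log 2 ≤ (k + 1) / 2 * Real.log 2 := by gcongr
        _ = c₀ * k + c₀ := by rw [hc₀]; ring
    have hle2 : ((y : ℝ) + 4) * Real.log (5 * L) ≤ (L ^ t + 5) * Real.log (5 * L) :=
      mul_le_mul_of_nonneg_right (by linarith) hlog5
    have hk2 : c₀ * k * l ≤ (c₀ + ε / 2) * L := by
      rw [← hct]
      have : c₀ * k * l = c₀ / t * (k * (t * l)) := by field_simp
      rw [this]
      exact mul_le_mul_of_nonneg_left hkL (by positivity)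
    have hgoal : ((m : ℝ) * Real.log 2 + (y + 4) * Real.log (5 * L)) * l ≤ (c₀ + ε) * L := by
      calc ((m : ℝ) * Real.log 2 + (y + 4) * Real.log (5 * L)) * l
          ≤ ((c₀ * k + c₀) + (L ^ t + 5) * Real.log (5 * L)) * l :=
            mul_le_mul_of_nonneg_right (by linarith) hl0.le
        _ = c₀ * k * l + (c₀ + (L ^ t + 5) * Real.log (5 * L)) * l := by ring
        _ ≤ (c₀ + ε / 2) * L + ε / 2 * L := add_le_add hk2 herr
        _ = (c₀ + ε) * L := by ring
    rw [← mul_div_assoc, le_div_iff₀ hl0, mul_comm L]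
    exact hgoal
  exact eventually_atTop.1 hev

end Pool.Agent.Results.MP_f02ea4_nt.CountingFunction
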