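import Mathlib
import Pool.Agent.W137.Index
import Pool.Agent.H298R3.Opn.Descent

set_option autoImplicit false

/-!
# The index of an odd perfect number at a prime power component

Let `N` be an odd perfect number, `p ^ a` a prime power exactly dividing `N` and `m = N / p ^ a`.
Then `s = σ(m) / p ^ a` is an integer, the index, and `2 m = s σ(p ^ a)`.

* `Index.Data.N_lt`: `N < (2 (a + 1)) ^ (2 a (a + 2)) * s ^ (4 a ^ 2 + 2 a + 1)`.  The smallest
  prime `r` among `p` and the primes with `p ∣ σ(r ^ e)` is at most `(a + 1) (s + 1)`; if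
  `σ(r ^ e) = p ^ c u`, then `p ^ c u (r - 1) = - 1` and `p ^ (a + 1) = 1` modulo a large divisor of
  `r ^ e`, so `(u (r - 1)) ^ (a + 1) = ± 1`.
* `Index.Data.card_le'`: `ω(N) ≤ ω(s) + Ω(s) + ω(a + 1) + 2`.  Together with the bound
  `N < (2 k) ^ (4 ^ k)` this gives a lower bound for `s` which does not depend on `a`.
-/

namespace Pool.Agent.Results.MP_f02ea4_nt.IndexLowerBound
open Finset
open Pool.Agent.W137.Count Pool.Agent.W137.Index

/-- the bound for all exponents, in terms of logarithms -/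
lemma log_bound (η : ℝ) (hη : 0 < η) (hη1 : η ≤ 1) : ∃ C : ℝ, ∀ N p a m s : ℕ,
    Data N p a m s → 3 ≤ Real.log N →
    (1 - 4 * η) * Real.log (Real.log N) ≤
      (Real.log 4 / Real.log 3 + 4 * η) * Real.log s + C := by
  obtain ⟨C₂, hC20, hC2⟩ := omega_small η hη
  set C₁ := Real.log 2 - 1 - Real.log η with hC₁
  set C₃ := 2 * C₂ + 3 + η * Real.log 3 with hC₃
  refine ⟨(Real.log 4 + η) * C₃ + C₁, ?_⟩
  intro N p a m s H hN3
  have hs0 := H.s_pos
  have hN0 := H.N0
  have hperf := H.perf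
  set k := N.primeFactors.card with hk
  set L := Real.log (N : ℝ) with hL
  set Λ := Real.log L with hΛ
  set σ := Real.log (s : ℝ) with hσ
  have hL0 : 0 < L := by linarith
  have hσ0 : 0 ≤ σ := Real.log_nonneg (by exact_mod_cast hs0)
  have hΛ0 : 0 ≤ Λ := Real.log_nonneg (by linarith)
  have hk1 : 1 ≤ k := by
    have hpN : p ∈ N.primeFactors := Nat.mem_primeFactors.2 ⟨H.hp, by
      rw [H.hN]; exact (dvd_pow_self p (by have := H.ha; omega)).mul_right _, hN0⟩
    exact Finset.card_pos.2 ⟨p, hpN⟩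
  have hk1r : (1 : ℝ) ≤ k := by exact_mod_cast hk1
  -- `Λ ≤ (log 4 + η) k + C₁`
  have hlt := Pool.Agent.H298R3.Opn.opn_bound N H.odd hperf
  have hΛk : Λ ≤ (Real.log 4 + η) * k + C₁ := by
    have h1 : L ≤ 4 ^ k * Real.log (2 * k) := by
      have h2 : (N : ℝ) ≤ ((2 * k : ℕ) : ℝ) ^ (4 ^ k) := by exact_mod_cast hlt.le
      have h3 := Real.log_le_log (by exact_mod_cast Nat.pos_of_ne_zero hN0) h2
      rw [Real.log_pow] at h3
      push_cast at h3
      exact h3
    have hlog2k : 0 < Real.log (2 * (k : ℝ)) := Real.log_pos (by linarith)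
    have h2 : Λ ≤ k * Real.log 4 + Real.log (Real.log (2 * k)) := by
      have h3 := Real.log_le_log hL0 h1
      rw [Real.log_mul (by positivity) hlog2k.ne', Real.log_pow] at h3
      exact h3
    have h3 : Real.log (Real.log (2 * (k : ℝ))) ≤ Real.log (2 * k) := by
      have := Real.log_le_sub_one_of_pos hlog2k
      linarith
    have h4 : Real.log (2 * (k : ℝ)) ≤ η * k + C₁ := by
      rw [Real.log_mul (by norm_num) (by linarith)]
      have h5 := Real.log_le_sub_one_of_pos (show 0 < η * (k : ℝ) by positivity)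
      rw [Real.log_mul hη.ne' (by linarith)] at h5
      rw [hC₁]
      linarith
    linarith
  -- the bound for `k`
  have hcard := H.card_le'
  have hcardr : (k : ℝ) ≤ (s.primeFactors.card : ℝ) + (ArithmeticFunction.cardFactors s : ℝ) +
      ((a + 1).primeFactors.card : ℝ) + 2 := by exact_mod_cast hcard
  have hlog3 : 1 < Real.log 3 := by
    rw [Real.lt_log_iff_exp_lt (by norm_num)]
    have := Real.exp_one_lt_d9
    linarith
  have hΩ : (ArithmeticFunction.cardFactors s : ℝ) ≤ 1 + σ / Real.log 3 := by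
    have h1 := H.pow_cardFactors_le
    have h2 : (3 : ℝ) ^ (ArithmeticFunction.cardFactors s) ≤ 3 * s := by exact_mod_cast h1
    have h3 := Real.log_le_log (by positivity) h2
    rw [Real.log_pow, Real.log_mul (by norm_num) (by positivity)] at h3
    have h4 : (ArithmeticFunction.cardFactors s : ℝ) ≤ (Real.log 3 + σ) / Real.log 3 := by
      rw [le_div_iff₀ (by linarith)]
      exact h3
    rwa [add_div, div_self (by linarith)] at h4
  have ha1 : Real.log ((a + 1 : ℕ) : ℝ) ≤ Λ + Real.log 3 := by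
    have h1 : (2 : ℝ) ^ a ≤ N := by
      have h2 : 2 ^ a ≤ N := by
        calc 2 ^ a ≤ p ^ a := Nat.pow_le_pow_left H.hp.two_le _
          _ ≤ N := Nat.le_of_dvd (Nat.pos_of_ne_zero hN0) (H.hN ▸ dvd_mul_right _ _)
      exact_mod_cast h2
    have h2 := Real.log_le_log (by positivity) h1
    rw [Real.log_pow] at h2
    have h3 : (1 / 2 : ℝ) ≤ Real.log 2 := by have := Real.log_two_gt_d9; linarith
    have h4 : (a : ℝ) * (1 / 2) ≤ a * Real.log 2 := by gcongr
    have h5 : ((a + 1 : ℕ) : ℝ) ≤ 3 * L := by push_cast; linarith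
    calc Real.log ((a + 1 : ℕ) : ℝ) ≤ Real.log (3 * L) := Real.log_le_log (by positivity) h5
      _ = Λ + Real.log 3 := by rw [Real.log_mul (by norm_num) hL0.ne']; ring
  have hω1 := hC2 s hs0.ne'
  have hω2 := hC2 (a + 1) (by omega)
  have hω2' : ((a + 1).primeFactors.card : ℝ) ≤ η * (Λ + Real.log 3) + C₂ := by
    refine hω2.trans ?_
    have := mul_le_mul_of_nonneg_left ha1 hη.le
    linarith
  have hkb : (k : ℝ) ≤ (1 / Real.log 3 + η) * σ + η * Λ + C₃ := by
    have e1 : σ / Real.log 3 = 1 / Real.log 3 * σ := by ring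
    rw [hC₃]
    nlinarith
  -- numerical constants
  have hlog4 : Real.log 4 ≤ 7 / 5 := by
    have : Real.log 4 = 2 * Real.log 2 := by
      rw [show (4 : ℝ) = 2 ^ 2 by norm_num, Real.log_pow]; norm_num
    have := Real.log_two_lt_d9
    linarith
  have hlog40 : 0 < Real.log 4 := Real.log_pos (by norm_num)
  have hinv : 1 / Real.log 3 ≤ 1 := by
    rw [div_le_one (by linarith)]; exact hlog3.le
  have hinv0 : 0 < 1 / Real.log 3 := by positivity
  have hcoef : (Real.log 4 + η) * (1 / Real.log 3 + η) ≤ Real.log 4 / Real.log 3 + 4 * η := by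
    have e1 : (Real.log 4 + η) * (1 / Real.log 3 + η) =
        Real.log 4 / Real.log 3 + η * (1 / Real.log 3 + Real.log 4 + η) := by ring
    rw [e1]
    nlinarith
  have hcoef2 : (Real.log 4 + η) * η ≤ 4 * η := by nlinarith
  have h1 : Λ ≤ (Real.log 4 + η) * ((1 / Real.log 3 + η) * σ + η * Λ + C₃) + C₁ := by
    have := mul_le_mul_of_nonneg_left hkb (by positivity : 0 ≤ Real.log 4 + η)
    linarith
  have h2 : (Real.log 4 + η) * ((1 / Real.log 3 + η) * σ) ≤
      (Real.log 4 / Real.log 3 + 4 * η) * σ := by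
    rw [← mul_assoc]
    exact mul_le_mul_of_nonneg_right hcoef hσ0
  have h3 : (Real.log 4 + η) * (η * Λ) ≤ 4 * η * Λ := by
    rw [← mul_assoc]
    exact mul_le_mul_of_nonneg_right hcoef2 hΛ0
  nlinarith

/-- **Main theorem.** For every `ε > 0` there is `N₀` such that for each odd perfect number
`N ≥ N₀` and each prime factor `p` of `N`, with exponent `a = v_p(N)`, the index
`s = σ(N / p ^ a) / p ^ a` is at least `(log N) ^ ((log 3) / (log 4) - ε)` and at least
`N ^ (1 / (4 a ^ 2 + 2 a + 1)) / (2 (a + 1))`. -/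
theorem result (ε : ℝ) (hε : 0 < ε) : ∃ N₀ : ℕ, ∀ N : ℕ, N₀ ≤ N → Odd N → N.Perfect →
    ∀ p : ℕ, p.Prime → p ∣ N → ∀ a : ℕ, a = N.factorization p →
    max (Real.log N ^ (Real.log 3 / Real.log 4 - ε))
      ((N : ℝ) ^ (1 / (4 * (a : ℝ) ^ 2 + 2 * a + 1)) / (2 * (a + 1))) ≤
      ((∑ d ∈ (N / p ^ a).divisors, d : ℕ) : ℝ) / (p : ℝ) ^ a := by
  have hlog3 : 0 < Real.log 3 := Real.log_pos (by norm_num)
  have hlog4 : 0 < Real.log 4 := Real.log_pos (by norm_num)
  set A := Real.log 4 / Real.log 3 with hA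
  have hA1 : 1 ≤ A := by
    rw [hA, le_div_iff₀ hlog3, one_mul]
    exact Real.log_le_log (by norm_num) (by norm_num)
  have hAinv : Real.log 3 / Real.log 4 = 1 / A := by rw [hA]; field_simp
  set η := min (ε / 16) 1 with hη
  have hη0 : 0 < η := lt_min (by positivity) one_pos
  have hη1 : η ≤ 1 := min_le_right _ _
  have hη2 : η ≤ ε / 16 := min_le_left _ _
  obtain ⟨C, hC⟩ := log_bound η hη0 hη1
  -- the threshold
  set X := Real.exp (Real.exp (2 * |C| / ε + 2)) with hX
  refine ⟨⌈X⌉₊ + 1, ?_⟩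
  intro N hN hodd hperf p hp hpN a ha
  have hNX : X ≤ N := by
    have h1 : X ≤ ⌈X⌉₊ := Nat.le_ceil _
    have h2 : ((⌈X⌉₊ + 1 : ℕ) : ℝ) ≤ N := by exact_mod_cast hN
    push_cast at h2
    linarith
  have hX0 : 0 < X := Real.exp_pos _
  have hNpos : (0 : ℝ) < N := hX0.trans_le hNX
  have hN0 : N ≠ 0 := by rintro rfl; simp at hNpos
  have hL : Real.exp (2 * |C| / ε + 2) ≤ Real.log N := by
    rw [Real.le_log_iff_exp_le hNpos]; exact hNX
  have hL0 : 0 < Real.log N := (Real.exp_pos _).trans_le hL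
  have hΛ : 2 * |C| / ε + 2 ≤ Real.log (Real.log N) := by
    rw [Real.le_log_iff_exp_le hL0]; exact hL
  have hΛ2 : 2 ≤ Real.log (Real.log N) := by
    have : 0 ≤ 2 * |C| / ε := by positivity
    linarith
  have hL3 : 3 ≤ Real.log N := by
    have h1 : Real.exp 2 ≤ Real.log N := by
      rw [← Real.le_log_iff_exp_le hL0]; exact hΛ2
    have h2 := Real.add_one_le_exp 2
    linarith
  -- the data
  have ha1 : 1 ≤ a := by
    rw [ha]; exact hp.factorization_pos_of_dvd hN0 hpN
  set m := N / p ^ a with hm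
  have hNm : N = p ^ a * m := by
    rw [hm, ha]; exact (Nat.ordProj_mul_ordCompl_eq_self N p).symm
  have hpm : ¬ p ∣ m := by
    rw [hm, ha]; exact Nat.not_dvd_ordCompl hp hN0
  have hsgN : sg N = 2 * N := (Nat.perfect_iff_sum_divisors_eq_two_mul hperf.2).1 hperf
  have hcop : Nat.Coprime (p ^ a) m := Nat.Coprime.pow_left _ ((Nat.Prime.coprime_iff_not_dvd hp).2 hpm)
  obtain ⟨s, hs⟩ : p ^ a ∣ sg m := by
    have h1 : p ^ a ∣ S p a * sg m := by
      have h2 : S p a * sg m = 2 * N := by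
        rw [← hsgN]
        conv_rhs => rw [hNm]
        rw [sg_mul hcop, sg_prime_pow hp]
      rw [h2]
      exact (Dvd.intro _ hNm.symm).mul_left 2
    exact (Nat.Coprime.pow_left a (S_coprime hp a)).dvd_of_dvd_mul_left h1
  have H : Data N p a m s :=
    { odd := hodd, perf := hsgN, hp := hp, ha := ha1, hN := hNm, hpm := hpm,
      hs := by rw [hs, mul_comm] }
  have hs0 := H.s_pos
  have hsr : (0 : ℝ) < s := by exact_mod_cast hs0
  have hratio : ((∑ d ∈ (N / p ^ a).divisors, d : ℕ) : ℝ) / (p : ℝ) ^ a = s := by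
    have h1 : ((∑ d ∈ (N / p ^ a).divisors, d : ℕ) : ℝ) = (p : ℝ) ^ a * s := by
      have h2 : ∑ d ∈ (N / p ^ a).divisors, d = p ^ a * s := hs
      rw [h2]; push_cast; ring
    rw [h1]
    have : (p : ℝ) ^ a ≠ 0 := pow_ne_zero _ (by exact_mod_cast hp.ne_zero)
    field_simp
  rw [hratio]
  refine max_le ?_ ?_
  · -- all exponents
    have h1 := hC N p a m s H hL3
    set Λ := Real.log (Real.log N) with hΛdef
    set σ := Real.log (s : ℝ) with hσ
    have hσ0 : 0 ≤ σ := Real.log_nonneg (by exact_mod_cast hs0)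
    have hCΛ : |C| ≤ ε / 2 * (Λ - 2) := by
      have h2 : 2 * |C| / ε ≤ Λ - 2 := by linarith
      rw [div_le_iff₀ hε] at h2
      linarith
    have hgoal : (Real.log 3 / Real.log 4 - ε) * Λ ≤ σ := by
      rw [hAinv]
      by_contra hcon
      push Not at hcon
      have h2 : (A + 4 * η) * σ ≤ (A + 4 * η) * ((1 / A - ε) * Λ) :=
        mul_le_mul_of_nonneg_left hcon.le (by positivity)
      have h3 : (A + 4 * η) * (1 / A - ε) ≤ 1 - ε + 4 * η := by
        have e1 : (A + 4 * η) * (1 / A - ε) = 1 - A * ε + 4 * η * (1 / A) - 4 * η * ε := by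
          field_simp
          ring
        have e2 : 1 / A ≤ 1 := by rw [div_le_one (by linarith)]; exact hA1
        have e3 : 4 * η * (1 / A) ≤ 4 * η * 1 := by gcongr
        have e4 : 1 * ε ≤ A * ε := by gcongr
        have e5 : 0 ≤ 4 * η * ε := by positivity
        rw [e1]
        linarith
      have h4 : (A + 4 * η) * ((1 / A - ε) * Λ) ≤ (1 - ε + 4 * η) * Λ := by
        rw [← mul_assoc]
        exact mul_le_mul_of_nonneg_right h3 (by linarith)
      have h5 : (1 - 4 * η) * Λ ≤ (1 - ε + 4 * η) * Λ + C := by linarith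
      have h6 : C ≤ |C| := le_abs_self C
      have h7 : (ε - 8 * η) * Λ ≤ |C| := by linarith
      have h8 : ε / 2 * Λ ≤ (ε - 8 * η) * Λ := by
        refine mul_le_mul_of_nonneg_right ?_ (by linarith)
        linarith
      have h9 : ε / 2 * Λ ≤ ε / 2 * (Λ - 2) := by linarith
      nlinarith
    rw [Real.rpow_def_of_pos hL0]
    rw [← Real.le_log_iff_exp_le hsr]
    rw [mul_comm]
    exact hgoal
  · -- bounded exponents
    have h1 := H.N_lt
    have har : (1 : ℝ) ≤ a := by exact_mod_cast ha1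
    set M : ℝ := 4 * (a : ℝ) ^ 2 + 2 * a + 1 with hM
    have hM0 : 0 < M := by positivity
    rw [div_le_iff₀ (by positivity)]
    have h2 : (N : ℝ) ≤ (2 * ((a : ℝ) + 1)) ^ (2 * a * (a + 2)) * (s : ℝ) ^ (4 * a ^ 2 + 2 * a + 1) := by
      exact_mod_cast h1.le
    have hb : (1 : ℝ) ≤ 2 * ((a : ℝ) + 1) := by linarith
    have h3 : (N : ℝ) ≤ ((s : ℝ) * (2 * (a + 1))) ^ M := by
      have e1 : M = ((4 * a ^ 2 + 2 * a + 1 : ℕ) : ℝ) := by rw [hM]; push_cast; ring
      rw [e1, Real.rpow_natCast, mul_pow, mul_comm]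
      refine h2.trans ?_
      refine mul_le_mul_of_nonneg_right ?_ (by positivity)
      exact pow_le_pow_right₀ hb (by nlinarith)
    calc (N : ℝ) ^ (1 / M) ≤ (((s : ℝ) * (2 * (a + 1))) ^ M) ^ (1 / M) :=
          Real.rpow_le_rpow hNpos.le h3 (by positivity)
      _ = (s : ℝ) * (2 * (a + 1)) := by
          rw [← Real.rpow_mul (by positivity), mul_one_div_cancel hM0.ne', Real.rpow_one]

end Pool.Agent.Results.MP_f02ea4_nt.IndexLowerBound
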