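import Mathlib
import Pool.Agent.W132.OPN.Asymp

set_option autoImplicit false

/-!
# The divisors of an odd perfect number composed of large primes

Let `N` be an odd perfect number and `y ≥ 1`.  Write `N = M * D`, where `M` is composed of primes
`≤ y` and `D` of primes `> y`, and let `D'` be `D` without the largest prime factor of `N`.

* `D` has at least `c log N / (y ^ 2 (log N) ^ ε)` divisors.
* `D'` is not `1` if `y ^ 2 (log N) ^ ε < c log N` (so the second largest prime factor of `N` is at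
  least `(log N) ^ (1 / 2 - ε)` for large `N`), and then it has at least
  `c log N / (y ^ 3 (log N) ^ ε)` divisors.
* `D ^ 2 ≥ N exp (- y ^ 2 (log N) ^ ε / c)`.

Proof.  For a prime `q` with `q ^ e ∥ N` put `n = e + 1`.  By the lifting lemma the `y`-smooth part of
`σ(q ^ e)` is at most `2 n ∏ (q ^ d - 1)`, where `d` runs over the divisors of `n` with `1 < d ≤ y`
(`Smooth`).  The rest of `∏ σ(q ^ e)`, `q ≤ y`, divides `D`.  This gives the bound for `M`.
For the first part run the descent over the primes `r₁ < r₂ < ⋯` greater than `y` only: all the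
`q ≤ y` such that `σ(q ^ e)` is not divisible by `r_{i+1}, r_{i+2}, …` are put into the part which is
treated exactly, and for the other ones `q ^ n > r_{i+1}`.  The `r_j`-part, `j ≤ i`, of the product of
the `σ(q ^ e)` cancels in the denominator (`cancel`), which gives `r_{i+1} ≤ W ∏_{j ≤ i} r_j ^ {e_j}`,
where `W` depends on the small primes only (`step`, `W_le`).
If there is just one prime `r > y`, then `q ^ n = 1 + t r ^ v` with a small `t`, and a power `q ^ c`
dividing `r ^ h - 1` divides `t ^ h ± 1` (`ttrick`); since the order of `r` modulo `q` divides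
`q - 1`, this bounds `σ(r ^ e)` (`one_large`).
-/

namespace Pool.Agent.Results.MP_f02ea4_nt.LargePrimeDivisors
open Finset
open Pool.Agent.W132.OPN

/-- the cutoff as a natural number -/
lemma cutoff (N : ℕ) (H : Opn N) (y : ℝ) (hy : 1 ≤ y) : ∃ Y : ℕ, 2 ≤ Y ∧ (Y : ℝ) ≤ 2 * y ∧
    ∀ p ∈ N.primeFactors, ((p : ℝ) ≤ y ↔ p ≤ Y) := by
  refine ⟨max ⌊y⌋₊ 2, le_max_right _ _, ?_, ?_⟩
  · rw [Nat.cast_max]
    refine max_le ?_ (by push_cast; linarith)
    have := Nat.floor_le (show 0 ≤ y by linarith)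
    linarith
  · intro p hp
    have h3 := H.three_le hp
    rw [← Nat.le_floor_iff (by linarith)]
    omega

section
variable {δ a b : ℝ} {N Y : ℕ}

lemma W_pos (H : Opn N) : 0 < W N Y ∅ := by
  unfold W
  rw [Finset.prod_empty, mul_one]
  exact Nat.mul_pos (Nat.mul_pos (Nat.mul_pos (by norm_num) (card_pos H)) S0_pos) (rad_pos H)

/-- part 4 -/
theorem main4 (E : Est δ a b) (H : Opn N) (hY : 2 ≤ Y) :
    Real.log (S0 N Y : ℕ) ≤ (1 + 2 * a + 2 * b) * (Y : ℝ) ^ 2 * Real.log N ^ δ := by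
  refine le_trans (Real.log_le_log (by exact_mod_cast (S0_pos (N := N) (Y := Y))) ?_)
    (log_W0 E H hY)
  have : S0 N Y ≤ W N Y ∅ := by
    unfold W
    rw [Finset.prod_empty, mul_one]
    have h1 : 1 ≤ 4 * N.primeFactors.card * rad N Y :=
      Nat.mul_pos (by have := card_pos H; omega) (rad_pos H)
    calc S0 N Y = 1 * S0 N Y := (one_mul _).symm
      _ ≤ (4 * N.primeFactors.card * rad N Y) * S0 N Y := Nat.mul_le_mul_right _ h1
      _ = _ := by ring
  exact_mod_cast this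

/-- part 1 -/
theorem main1 (E : Est δ a b) (H : Opn N) (hY : 2 ≤ Y) :
    Real.log N ≤ 2 * (1 + 2 * a + 2 * b) * (Y : ℝ) ^ 2 * Real.log N ^ δ *
      (∏ r ∈ R N Y, (N.factorization r + 1) : ℕ) := by
  set L := Real.log (N : ℝ) with hL
  set l := L ^ δ with hl
  have hL1 : 1 < L := one_lt_log H
  have hl1 : 1 ≤ l := E.one_le N H
  have ha := E.a1
  have hb := E.b1
  have hYr : (2 : ℝ) ≤ Y := by exact_mod_cast hY
  have hN0 : (0 : ℝ) < N := by exact_mod_cast Nat.pos_of_ne_zero H.ne_zero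
  set C1 := 1 + 2 * a + 2 * b with hC1
  have hC10 : 5 ≤ C1 := by linarith
  have hW0 : Real.log (W N Y ∅ : ℕ) ≤ C1 * (Y : ℝ) ^ 2 * l := log_W0 E H hY
  have h1 := N_le H hY
  have h2 : (N : ℝ) ≤ (W N Y ∅ : ℝ) ^ (2 * ∏ r ∈ R N Y, (N.factorization r + 1)) := by
    exact_mod_cast h1
  have h3 := Real.log_le_log hN0 h2
  rw [Real.log_pow] at h3
  have h4 : (0 : ℝ) ≤ ((∏ r ∈ R N Y, (N.factorization r + 1) : ℕ) : ℝ) := Nat.cast_nonneg _
  calc L ≤ ((2 * ∏ r ∈ R N Y, (N.factorization r + 1) : ℕ) : ℝ) * Real.log (W N Y ∅ : ℕ) := h3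
    _ = 2 * ((∏ r ∈ R N Y, (N.factorization r + 1) : ℕ) : ℝ) * Real.log (W N Y ∅ : ℕ) := by
        rw [Nat.cast_mul]; norm_num
    _ ≤ 2 * ((∏ r ∈ R N Y, (N.factorization r + 1) : ℕ) : ℝ) * (C1 * (Y : ℝ) ^ 2 * l) :=
        mul_le_mul_of_nonneg_left hW0 (by positivity)
    _ = _ := by ring

/-- part 2 -/
theorem main2 (E : Est δ a b) (H : Opn N) (hY : 2 ≤ Y) {r : ℕ} (hr : r ∈ R N Y)
    (hmax : ∀ r' ∈ R N Y, r' ≤ r) :
    Real.log N ≤ 2 * (a + (b + 1) * (1 + 2 * a + 2 * b)) * (Y : ℝ) ^ 3 *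
      (Real.log N ^ δ) ^ 2 * (∏ p ∈ (R N Y).erase r, (N.factorization p + 1) : ℕ) := by
  set L := Real.log (N : ℝ) with hL
  set l := L ^ δ with hl
  have hL1 : 1 < L := one_lt_log H
  have hl1 : 1 ≤ l := E.one_le N H
  have ha := E.a1
  have hb := E.b1
  have hYr : (2 : ℝ) ≤ Y := by exact_mod_cast hY
  have hN0 : (0 : ℝ) < N := by exact_mod_cast Nat.pos_of_ne_zero H.ne_zero
  set C1 := 1 + 2 * a + 2 * b with hC1
  have hC10 : 5 ≤ C1 := by linarith
  have hW0 : Real.log (W N Y ∅ : ℕ) ≤ C1 * (Y : ℝ) ^ 2 * l := log_W0 E H hY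
  have hWpos : 0 < W N Y ∅ := W_pos H
  have hlogW0 : 0 ≤ Real.log (W N Y ∅ : ℕ) := Real.log_nonneg (by exact_mod_cast hWpos)
  have h1 := N_le_largest H hY hr hmax
  set τ' := ∏ p ∈ (R N Y).erase r, (N.factorization p + 1) with hτ'
  set n := N.factorization r + 1 with hn
  have hτ1 : 1 ≤ τ' := Finset.prod_pos (fun p _ => Nat.succ_pos _)
  have hτ1r : (1 : ℝ) ≤ τ' := by exact_mod_cast hτ1
  have h2 : (N : ℝ) ≤ ((2 * (n : ℝ)) * ((W N Y ∅ : ℝ) ^ τ') ^ (Y * n.divisors.card + 2)) ^ 2 := by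
    exact_mod_cast h1
  have h3 := Real.log_le_log hN0 h2
  have hWr : (0 : ℝ) < W N Y ∅ := by exact_mod_cast hWpos
  have hnr : (0 : ℝ) < n := by exact_mod_cast Nat.succ_pos _
  rw [Real.log_pow, Real.log_mul (by positivity) (by positivity), Real.log_pow,
    Real.log_pow] at h3
  have h4 := log_n_le E H (R_sub hr)
  rw [← hn, ← hL, ← hl] at h4
  have h5 := E.tau N H r (R_sub hr)
  rw [← hn, ← hL, ← hl] at h5
  have h6 : ((Y * n.divisors.card + 2 : ℕ) : ℝ) ≤ (b + 1) * Y * l := by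
    push_cast
    have : (Y : ℝ) * (n.divisors.card : ℝ) ≤ Y * (b * l) :=
      mul_le_mul_of_nonneg_left h5 (by positivity)
    nlinarith
  have h7 : (τ' : ℝ) * Real.log (W N Y ∅ : ℕ) ≤ τ' * (C1 * (Y : ℝ) ^ 2 * l) :=
    mul_le_mul_of_nonneg_left hW0 (by positivity)
  have h8 : ((Y * n.divisors.card + 2 : ℕ) : ℝ) * ((τ' : ℝ) * Real.log (W N Y ∅ : ℕ)) ≤
      ((b + 1) * Y * l) * (τ' * (C1 * (Y : ℝ) ^ 2 * l)) :=
    mul_le_mul h6 h7 (mul_nonneg (Nat.cast_nonneg _) hlogW0) (by positivity)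
  have h9 : a * l ≤ a * ((Y : ℝ) ^ 3 * l ^ 2 * τ') := by
    refine mul_le_mul_of_nonneg_left ?_ (by linarith)
    have e1 : (1 : ℝ) ≤ (Y : ℝ) ^ 3 := one_le_pow₀ (by linarith)
    have e2 : l ≤ l ^ 2 := by nlinarith
    have e3 : l ≤ (Y : ℝ) ^ 3 * l ^ 2 := by
      calc l = 1 * l := (one_mul _).symm
        _ ≤ (Y : ℝ) ^ 3 * l ^ 2 := mul_le_mul e1 e2 (by linarith) (by positivity)
    calc l ≤ (Y : ℝ) ^ 3 * l ^ 2 := e3
      _ = (Y : ℝ) ^ 3 * l ^ 2 * 1 := (mul_one _).symm
      _ ≤ _ := mul_le_mul_of_nonneg_left hτ1r (by positivity)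
  push_cast at h3 h8
  push_cast
  calc L ≤ 2 * (Real.log (2 * (n : ℝ)) + ((Y : ℝ) * (n.divisors.card : ℝ) + 2) *
        ((τ' : ℝ) * Real.log (W N Y ∅ : ℕ))) := h3
    _ ≤ 2 * (a * ((Y : ℝ) ^ 3 * l ^ 2 * τ') + ((b + 1) * Y * l) *
        (τ' * (C1 * (Y : ℝ) ^ 2 * l))) := by linarith
    _ = _ := by rw [hτ']; push_cast; ring

/-- part 3 -/
theorem main3 (E : Est δ a b) (H : Opn N) (hY : 2 ≤ Y) (hYL : (Y : ℝ) ≤ 4 * Real.log N)
    (hcard : (R N Y).card ≤ 1) :
    Real.log N ≤ ((1 + 2 * a + 2 * b) + 2 * (a + 1 + a * b + a * b ^ 2)) * (Y : ℝ) ^ 2 *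
      (Real.log N ^ δ) ^ 3 := by
  set L := Real.log (N : ℝ) with hL
  set l := L ^ δ with hl
  have hL1 : 1 < L := one_lt_log H
  have hl1 : 1 ≤ l := E.one_le N H
  have ha := E.a1
  have hb := E.b1
  have hYr : (2 : ℝ) ≤ Y := by exact_mod_cast hY
  have hN0 : (0 : ℝ) < N := by exact_mod_cast Nat.pos_of_ne_zero H.ne_zero
  set C1 := 1 + 2 * a + 2 * b with hC1
  have hC10 : 5 ≤ C1 := by linarith
  have hS0 : Real.log (S0 N Y : ℕ) ≤ C1 * (Y : ℝ) ^ 2 * l := main4 E H hY
  have hlogY : Real.log Y ≤ a * l :=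
    (Real.log_le_log (by linarith) hYL).trans (E.log_le N H)
  have hYY : (1 : ℝ) ≤ (Y : ℝ) ^ 2 := one_le_pow₀ (by linarith)
  have hl3 : l ≤ l ^ 3 := by
    calc l = l * 1 := (mul_one _).symm
      _ ≤ l * l ^ 2 := mul_le_mul_of_nonneg_left (one_le_pow₀ hl1) (by linarith)
      _ = l ^ 3 := by ring
  have hYl : (Y : ℝ) ^ 2 * l ≤ (Y : ℝ) ^ 2 * l ^ 3 :=
    mul_le_mul_of_nonneg_left hl3 (by positivity)
  rcases Finset.eq_empty_or_nonempty (R N Y) with he | ⟨r, hr⟩
  · have h1 := N_le_none H hY he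
    have h2 : L ≤ Real.log (S0 N Y : ℕ) := Real.log_le_log hN0 (by exact_mod_cast h1)
    have hab : 0 ≤ 2 * (a + 1 + a * b + a * b ^ 2) := by positivity
    have h3 : 0 ≤ 2 * (a + 1 + a * b + a * b ^ 2) * ((Y : ℝ) ^ 2 * l ^ 3) := by positivity
    have h4 : C1 * ((Y : ℝ) ^ 2 * l) ≤ C1 * ((Y : ℝ) ^ 2 * l ^ 3) :=
      mul_le_mul_of_nonneg_left hYl (by linarith)
    nlinarith
  · have hR : R N Y = {r} := by
      refine Finset.eq_singleton_iff_unique_mem.2 ⟨hr, ?_⟩
      intro x hx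
      exact Finset.card_le_one.1 hcard x hx r hr
    set n := N.factorization r + 1 with hn
    have h4 := log_n_le E H (R_sub hr)
    rw [← hn, ← hL, ← hl] at h4
    have h5 := E.tau N H r (R_sub hr)
    rw [← hn, ← hL, ← hl] at h5
    set β := a * l + Y * (b * l) * (a * l) with hβ
    have hβ0 : 0 ≤ β := by positivity
    set B := ⌊Real.exp β⌋₊ with hB
    have hB1 : 1 ≤ B := by
      rw [hB, Nat.one_le_floor_iff]
      exact Real.one_le_exp hβ0
    have hBq : ∀ q ∈ Q N Y, (q - 1) * pt (fun l => l ≤ Y) (sq N q) ≤ B := by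
      intro q hq
      have hqI := Q_sub hq
      have hq3 := H.three_le hqI
      have e1 := smooth_sq_le (Y := Y) H hY hqI
      have e2 : (q - 1) * pt (fun l => l ≤ Y) (sq N q) ≤ q * pt (fun l => l ≤ Y) (sq N q) :=
        Nat.mul_le_mul_right _ (Nat.sub_le _ _)
      set m := N.factorization q + 1 with hm
      have e3 := log_n_le E H hqI
      rw [← hm, ← hL, ← hl] at e3
      have e4 := E.tau N H q hqI
      rw [← hm, ← hL, ← hl] at e4
      refine Nat.le_floor ?_
      have hqr : (0 : ℝ) < q := by exact_mod_cast (by omega : 0 < q)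
      have hmr : (0 : ℝ) < m := by exact_mod_cast Nat.succ_pos _
      have e5 : (((q - 1) * pt (fun l => l ≤ Y) (sq N q) : ℕ) : ℝ) ≤
          2 * (m : ℝ) * (q : ℝ) ^ (Y * m.divisors.card) := by
        have : (q - 1) * pt (fun l => l ≤ Y) (sq N q) ≤ 2 * (m * q ^ (Y * m.divisors.card)) :=
          e2.trans e1
        have h' : (((q - 1) * pt (fun l => l ≤ Y) (sq N q) : ℕ) : ℝ) ≤
            ((2 * (m * q ^ (Y * m.divisors.card)) : ℕ) : ℝ) := by exact_mod_cast this
        refine h'.trans_eq ?_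
        push_cast; ring
      refine e5.trans ?_
      rw [← Real.log_le_iff_le_exp (by positivity), Real.log_mul (by positivity)
        (by positivity), Real.log_pow]
      have hlq : Real.log (q : ℝ) ≤ a * l := by
        refine le_trans (Real.log_le_log hqr ?_) hlogY
        exact_mod_cast (Finset.mem_filter.1 hq).2
      have hlq0 : 0 ≤ Real.log (q : ℝ) :=
        Real.log_nonneg (by exact_mod_cast (by omega : 1 ≤ q))
      push_cast
      have e6 : (Y : ℝ) * (m.divisors.card : ℝ) * Real.log q ≤ Y * (b * l) * (a * l) := by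
        gcongr
      rw [hβ]
      linarith
    have h1 := N_le_one H hY hR hB1 hBq
    rw [← hn] at h1
    have hlogB : Real.log B ≤ β := by
      have e1 : (B : ℝ) ≤ Real.exp β := Nat.floor_le (Real.exp_pos _).le
      have e2 := Real.log_le_log (by exact_mod_cast hB1) e1
      rwa [Real.log_exp] at e2
    have hlogB0 : 0 ≤ Real.log B := Real.log_nonneg (by exact_mod_cast hB1)
    have hBr : (0 : ℝ) < B := by exact_mod_cast hB1
    have hnr : (0 : ℝ) < n := by exact_mod_cast Nat.succ_pos _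
    have hSr : (0 : ℝ) < S0 N Y := by exact_mod_cast (S0_pos (N := N) (Y := Y))
    have h2 : (N : ℝ) ≤ (S0 N Y : ℝ) * ((2 * (n : ℝ)) * (2 ^ Y *
        (B : ℝ) ^ (Y * n.divisors.card))) ^ 2 := by
      have h' : (N : ℝ) ≤ ((S0 N Y * (2 * (n * (2 ^ Y * B ^ (Y * n.divisors.card)))) ^ 2 : ℕ) :
          ℝ) := by exact_mod_cast h1
      refine h'.trans_eq ?_
      push_cast; ring
    have h3 := Real.log_le_log hN0 h2
    have hpow1 : (2 : ℝ) ^ Y ≠ 0 := by positivity
    have hpow2 : (B : ℝ) ^ (Y * n.divisors.card) ≠ 0 := by positivity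
    have h2n : 2 * (n : ℝ) ≠ 0 := by positivity
    rw [Real.log_mul hSr.ne' (pow_ne_zero _ (mul_ne_zero h2n (mul_ne_zero hpow1 hpow2))),
      Real.log_pow, Real.log_mul h2n (mul_ne_zero hpow1 hpow2), Real.log_mul hpow1 hpow2,
      Real.log_pow, Real.log_pow] at h3
    push_cast at h3
    have h6 : (Y : ℝ) * (n.divisors.card : ℝ) * Real.log B ≤ Y * (b * l) * β :=
      mul_le_mul (mul_le_mul_of_nonneg_left h5 (by positivity)) hlogB hlogB0 (by positivity)
    have h7 : (Y : ℝ) * Real.log 2 ≤ Y := by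
      have e1 : Real.log 2 ≤ 1 := by have := Real.log_two_lt_d9; linarith
      calc (Y : ℝ) * Real.log 2 ≤ Y * 1 := mul_le_mul_of_nonneg_left e1 (by positivity)
        _ = Y := mul_one _
    have h8 : L ≤ C1 * (Y : ℝ) ^ 2 * l + 2 * (a * l + (Y + Y * (b * l) * β)) := by
      calc L ≤ _ := h3
        _ ≤ _ := by linarith
    have h9 : (Y : ℝ) ≤ (Y : ℝ) ^ 2 * l ^ 3 := by
      have e1 : (1 : ℝ) ≤ l ^ 3 := one_le_pow₀ hl1
      nlinarith
    have h10 : a * l ≤ a * ((Y : ℝ) ^ 2 * l ^ 3) := by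
      refine mul_le_mul_of_nonneg_left ?_ (by linarith)
      calc l ≤ l ^ 3 := hl3
        _ = 1 * l ^ 3 := (one_mul _).symm
        _ ≤ _ := mul_le_mul_of_nonneg_right hYY (by positivity)
    have h11 : (Y : ℝ) * (b * l) * β ≤ (a * b + a * b ^ 2) * ((Y : ℝ) ^ 2 * l ^ 3) := by
      rw [hβ]
      have e1 : (Y : ℝ) * (b * l) * (a * l) ≤ a * b * ((Y : ℝ) ^ 2 * l ^ 3) := by
        have e2 : (Y : ℝ) * l ^ 2 ≤ (Y : ℝ) ^ 2 * l ^ 3 := by
          have e3 : (Y : ℝ) ≤ (Y : ℝ) ^ 2 := by nlinarith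
          have e4 : l ^ 2 ≤ l ^ 3 := by
            calc l ^ 2 = l ^ 2 * 1 := (mul_one _).symm
              _ ≤ l ^ 2 * l := mul_le_mul_of_nonneg_left hl1 (by positivity)
              _ = l ^ 3 := by ring
          exact mul_le_mul e3 e4 (by positivity) (by positivity)
        calc (Y : ℝ) * (b * l) * (a * l) = a * b * ((Y : ℝ) * l ^ 2) := by ring
          _ ≤ _ := mul_le_mul_of_nonneg_left e2 (by positivity)
      have e5 : (Y : ℝ) * (b * l) * (Y * (b * l) * (a * l)) =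
          a * b ^ 2 * ((Y : ℝ) ^ 2 * l ^ 3) := by ring
      rw [mul_add, e5, add_mul]
      linarith
    have h12 : C1 * ((Y : ℝ) ^ 2 * l) ≤ C1 * ((Y : ℝ) ^ 2 * l ^ 3) :=
      mul_le_mul_of_nonneg_left hYl (by linarith)
    calc L ≤ C1 * (Y : ℝ) ^ 2 * l + 2 * (a * l + (Y + Y * (b * l) * β)) := h8
      _ ≤ C1 * ((Y : ℝ) ^ 2 * l ^ 3) + 2 * (a * ((Y : ℝ) ^ 2 * l ^ 3) + ((Y : ℝ) ^ 2 * l ^ 3 +
          (a * b + a * b ^ 2) * ((Y : ℝ) ^ 2 * l ^ 3))) := by linarith
      _ = _ := by ring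


end

/-- the number of divisors of a unitary divisor of `N` -/
lemma card_divisors_prod {N : ℕ} (H : Opn N) {s : Finset ℕ} (hs : s ⊆ N.primeFactors) :
    (∏ p ∈ s, p ^ N.factorization p).divisors.card = ∏ p ∈ s, (N.factorization p + 1) := by
  classical
  have h1 : ∏ p ∈ s, p ^ N.factorization p = pt (fun l => l ∈ s) N := by
    rw [pt_eq_prod]
    refine Finset.prod_congr ?_ (fun _ _ => rfl)
    ext p
    rw [Finset.mem_filter]
    exact ⟨fun h => ⟨hs h, h⟩, fun h => h.2⟩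
  have hB0 : pt (fun l => l ∈ s) N ≠ 0 := pt_ne_zero _ _
  have hpf : (pt (fun l => l ∈ s) N).primeFactors = s := by
    ext p
    rw [← Nat.support_factorization, Finsupp.mem_support_iff]
    by_cases hp : p ∈ s
    · rw [pt_fac_pos (fun l => l ∈ s) _ hp]
      have h1 := hs hp
      rw [← Nat.support_factorization, Finsupp.mem_support_iff] at h1
      simp [h1, hp]
    · rw [pt_fac_neg (fun l => l ∈ s) _ hp]
      simp [hp]
  rw [h1, Nat.card_divisors hB0, hpf]
  refine Finset.prod_congr rfl ?_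
  intro p hp
  rw [pt_fac_pos (fun l => l ∈ s) _ hp]

/-- **Main theorem.**  Let `ε > 0`.  There is `c > 0` such that for all odd perfect numbers `N` and
all `y ≥ 1` the following holds.  Let `D` be the part of `N` composed of the primes `p > y`, and
`D'` the part of `N` composed of the primes `p > y` different from the largest prime factor of `N`.
Then

* `τ(D) ≥ c log N / (y ^ 2 (log N) ^ ε)`,
* `1 + y (τ(D') - 1) ≥ c log N / (y ^ 2 (log N) ^ ε)`,
* `D ^ 2 ≥ N exp (- y ^ 2 (log N) ^ ε / c)`,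

where `τ` is the number of divisors. -/
theorem result (ε : ℝ) (hε : 0 < ε) : ∃ c : ℝ, 0 < c ∧ ∀ N : ℕ, Odd N → N.Perfect →
    ∀ y : ℝ, 1 ≤ y → ∀ D D' : ℕ,
    D = ∏ p ∈ N.primeFactors.filter (fun p : ℕ => y < (p : ℝ)), p ^ N.factorization p →
    D' = ∏ p ∈ N.primeFactors.filter (fun p : ℕ => y < (p : ℝ) ∧ ∃ q ∈ N.primeFactors, p < q),
      p ^ N.factorization p →
    c * Real.log N ≤ y ^ 2 * Real.log N ^ ε * (D.divisors.card : ℝ) ∧
    c * Real.log N ≤ y ^ 2 * Real.log N ^ ε * (1 + y * ((D'.divisors.card : ℝ) - 1)) ∧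
    (N : ℝ) ≤ (D : ℝ) ^ 2 * Real.exp (y ^ 2 * Real.log N ^ ε / c) := by
  classical
  obtain ⟨a, b, E⟩ := exists_est (ε / 3) (by positivity)
  have ha := E.a1
  have hb := E.b1
  set C1 := 1 + 2 * a + 2 * b with hC1
  set C2 := a + (b + 1) * C1 with hC2
  set C3 := C1 + 2 * (a + 1 + a * b + a * b ^ 2) with hC3
  have hC10 : 5 ≤ C1 := by linarith
  have hC20 : C1 ≤ C2 := by nlinarith
  have hC30 : C1 ≤ C3 := by
    have : 0 ≤ 2 * (a + 1 + a * b + a * b ^ 2) := by positivity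
    linarith
  set K := 32 * C2 + 4 * C3 with hK
  have hK0 : 100 ≤ K := by linarith
  refine ⟨1 / K, by positivity, ?_⟩
  intro N hodd hperf y hy D D' hD hD'
  have H := opn_of_perfect hodd hperf
  obtain ⟨Y, hY, hY2, hYiff⟩ := cutoff N H y hy
  set L := Real.log (N : ℝ) with hL
  have hL1 : 1 < L := one_lt_log H
  set l := L ^ (ε / 3) with hl
  have hl1 : 1 ≤ l := E.one_le N H
  have hle : L ^ ε = l ^ 3 := by
    rw [hl, ← Real.rpow_natCast, ← Real.rpow_mul (by linarith)]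
    congr 1
    push_cast; ring
  have hYr : (2 : ℝ) ≤ Y := by exact_mod_cast hY
  have hN0 : (0 : ℝ) < N := by exact_mod_cast Nat.pos_of_ne_zero H.ne_zero
  have hY2' : (Y : ℝ) ^ 2 ≤ 4 * y ^ 2 := by
    calc (Y : ℝ) ^ 2 ≤ (2 * y) ^ 2 := pow_le_pow_left₀ (by positivity) hY2 2
      _ = 4 * y ^ 2 := by ring
  have hY3' : (Y : ℝ) ^ 3 ≤ 8 * y ^ 3 := by
    calc (Y : ℝ) ^ 3 ≤ (2 * y) ^ 3 := pow_le_pow_left₀ (by positivity) hY2 3
      _ = 8 * y ^ 3 := by ring
  have hll2 : l ≤ l ^ 3 := by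
    calc l = l * 1 := (mul_one _).symm
      _ ≤ l * l ^ 2 := mul_le_mul_of_nonneg_left (one_le_pow₀ hl1) (by linarith)
      _ = l ^ 3 := by ring
  have hll3 : l ^ 2 ≤ l ^ 3 := by
    calc l ^ 2 = l ^ 2 * 1 := (mul_one _).symm
      _ ≤ l ^ 2 * l := mul_le_mul_of_nonneg_left hl1 (by positivity)
      _ = l ^ 3 := by ring
  have hyl : 0 ≤ y ^ 2 * l ^ 3 := by positivity
  rw [hle]
  have hR : ∀ p ∈ N.primeFactors, (y < (p : ℝ) ↔ p ∈ R N Y) := by
    intro p hp
    rw [R, Finset.mem_filter, ← hYiff p hp, not_le]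
    exact ⟨fun h => ⟨hp, h⟩, fun h => h.2⟩
  have hRf : N.primeFactors.filter (fun p : ℕ => y < (p : ℝ)) = R N Y := by
    ext p
    rw [Finset.mem_filter]
    constructor
    · rintro ⟨h1, h2⟩; exact (hR p h1).1 h2
    · intro h; exact ⟨R_sub h, (hR p (R_sub h)).2 h⟩
  rw [hRf] at hD
  have hDcard : D.divisors.card = ∏ r ∈ R N Y, (N.factorization r + 1) := by
    rw [hD]; exact card_divisors_prod H R_sub
  refine ⟨?_, ?_, ?_⟩
  · -- part 1
    rw [hDcard]
    have h1 := main1 E H hY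
    rw [← hL, ← hl, ← hC1] at h1
    set τ : ℝ := ((∏ r ∈ R N Y, (N.factorization r + 1) : ℕ) : ℝ) with hτ
    have hτ0 : 0 ≤ τ := Nat.cast_nonneg _
    have h2 : L ≤ K * (y ^ 2 * l ^ 3 * τ) := by
      calc L ≤ 2 * C1 * (Y : ℝ) ^ 2 * l * τ := h1
        _ ≤ 2 * C1 * (4 * y ^ 2) * l ^ 3 * τ := by gcongr
        _ = 8 * C1 * (y ^ 2 * l ^ 3 * τ) := by ring
        _ ≤ K * (y ^ 2 * l ^ 3 * τ) := by
            apply mul_le_mul_of_nonneg_right _ (by positivity)
            linarith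
    rw [one_div, inv_mul_le_iff₀ (by linarith)]
    exact h2
  · -- part 2
    have hD0 : D' ≠ 0 := by
      rw [hD']
      refine Finset.prod_ne_zero_iff.2 (fun p hp => ?_)
      have := H.three_le (Finset.mem_filter.1 hp).1
      positivity
    have hD1 : (1 : ℝ) ≤ (D'.divisors.card : ℝ) := by
      have : 1 ≤ D'.divisors.card := Finset.card_pos.2 ⟨1, Nat.one_mem_divisors.2 hD0⟩
      exact_mod_cast this
    have hbig : 1 ≤ 1 + y * ((D'.divisors.card : ℝ) - 1) := by
      have : 0 ≤ y * ((D'.divisors.card : ℝ) - 1) := mul_nonneg (by linarith) (by linarith)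
      linarith
    by_cases hcard : (R N Y).card ≤ 1
    · -- at most one large prime
      have h0 : 1 / K * L ≤ y ^ 2 * l ^ 3 := by
        by_contra hcon
        push Not at hcon
        have hyL : y ^ 2 * l ^ 3 < L := by
          have : 1 / K * L ≤ 1 * L := by
            apply mul_le_mul_of_nonneg_right _ (by linarith)
            rw [div_le_one (by linarith)]
            linarith
          linarith
        have hyL2 : y ≤ L := by
          have e1 : y ≤ y ^ 2 := by nlinarith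
          have e2 : y ^ 2 ≤ y ^ 2 * l ^ 3 := by
            calc y ^ 2 = y ^ 2 * 1 := (mul_one _).symm
              _ ≤ _ := mul_le_mul_of_nonneg_left (one_le_pow₀ hl1) (by positivity)
          linarith
        have h1 := main3 E H hY (by linarith) hcard
        rw [← hL, ← hl, ← hC1, ← hC3] at h1
        have h2 : L ≤ K * (y ^ 2 * l ^ 3) := by
          calc L ≤ C3 * (Y : ℝ) ^ 2 * l ^ 3 := h1
            _ ≤ C3 * (4 * y ^ 2) * l ^ 3 := by gcongr
            _ = 4 * C3 * (y ^ 2 * l ^ 3) := by ring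
            _ ≤ K * (y ^ 2 * l ^ 3) := by
                apply mul_le_mul_of_nonneg_right _ hyl
                linarith
        have h3 : 1 / K * L ≤ y ^ 2 * l ^ 3 := by
          rw [one_div, inv_mul_le_iff₀ (by linarith)]
          exact h2
        linarith
      calc 1 / K * L ≤ y ^ 2 * l ^ 3 := h0
        _ = y ^ 2 * l ^ 3 * 1 := (mul_one _).symm
        _ ≤ _ := mul_le_mul_of_nonneg_left hbig hyl
    · -- at least two large primes
      push Not at hcard
      have hne : (R N Y).Nonempty := Finset.card_pos.1 (by omega)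
      set r := (R N Y).max' hne with hr
      have hrR : r ∈ R N Y := Finset.max'_mem _ _
      have hmax : ∀ r' ∈ R N Y, r' ≤ r := fun r' hr' => Finset.le_max' _ _ hr'
      have hRf' : N.primeFactors.filter (fun p : ℕ => y < (p : ℝ) ∧ ∃ q ∈ N.primeFactors, p < q) =
          (R N Y).erase r := by
        ext p
        rw [Finset.mem_filter]
        constructor
        · rintro ⟨hp, h1, p', hp', h2⟩
          have h3 := (hR p hp).1 h1
          refine Finset.mem_erase.2 ⟨?_, h3⟩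
          rintro rfl
          have h4 : p' ∈ R N Y := (hR p' hp').1 (h1.trans (by exact_mod_cast h2))
          have := hmax p' h4
          omega
        · intro h
          have h1 := Finset.mem_erase.1 h
          refine ⟨R_sub h1.2, (hR p (R_sub h1.2)).2 h1.2, r, R_sub hrR, ?_⟩
          have := hmax p h1.2
          omega
      rw [hRf'] at hD'
      have hDcard' : D'.divisors.card = ∏ p ∈ (R N Y).erase r, (N.factorization p + 1) := by
        rw [hD']; exact card_divisors_prod H ((Finset.erase_subset _ _).trans R_sub)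
      have hτ2 : (2 : ℝ) ≤ (D'.divisors.card : ℝ) := by
        have h1 : 2 ≤ D'.divisors.card := by
          rw [hDcard']
          have hne' : ((R N Y).erase r).Nonempty := by
            rw [← Finset.card_pos, Finset.card_erase_of_mem hrR]; omega
          obtain ⟨p, hp⟩ := hne'
          have h2 : N.factorization p + 1 ≤ ∏ p ∈ (R N Y).erase r, (N.factorization p + 1) :=
            Finset.single_le_prod' (f := fun p => N.factorization p + 1)
              (fun _ _ => Nat.succ_le_succ (Nat.zero_le _)) hp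
          have h3 := Opn.fac_pos (N := N) (R_sub (Finset.mem_of_mem_erase hp))
          omega
        exact_mod_cast h1
      have h1 := main2 E H hY hrR hmax
      rw [← hL, ← hl, ← hC1, ← hC2, ← hDcard'] at h1
      set τ : ℝ := (D'.divisors.card : ℝ) with hτ
      have h2 : L ≤ K * (y ^ 2 * l ^ 3 * (1 + y * (τ - 1))) := by
        calc L ≤ 2 * C2 * (Y : ℝ) ^ 3 * l ^ 2 * τ := h1
          _ ≤ 2 * C2 * (8 * y ^ 3) * l ^ 3 * τ := by gcongr
          _ ≤ 2 * C2 * (8 * y ^ 3) * l ^ 3 * (2 * (τ - 1)) := by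
              apply mul_le_mul_of_nonneg_left _ (by positivity)
              linarith
          _ = 32 * C2 * (y ^ 2 * l ^ 3 * (y * (τ - 1))) := by ring
          _ ≤ K * (y ^ 2 * l ^ 3 * (1 + y * (τ - 1))) := by
              apply mul_le_mul (by linarith) _ _ (by linarith)
              · apply mul_le_mul_of_nonneg_left _ hyl
                linarith
              · apply mul_nonneg hyl
                exact mul_nonneg (by linarith) (by linarith)
      rw [one_div, inv_mul_le_iff₀ (by linarith)]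
      exact h2
  · -- part 3
    have h1 := smooth_le H hY
    rw [← hD] at h1
    have h2 : N ≤ S0 N Y * D ^ 2 := by
      have h3 := prod_Q_R (N := N) (Y := Y) H
      rw [← hD] at h3
      calc N = (∏ q ∈ Q N Y, q ^ N.factorization q) * D := h3.symm
        _ ≤ (S0 N Y * D) * D := Nat.mul_le_mul_right _ h1
        _ = _ := by ring
    have h3 := main4 E H hY
    rw [← hL, ← hl, ← hC1] at h3
    have hS : (0 : ℝ) < S0 N Y := by exact_mod_cast (S0_pos (N := N) (Y := Y))
    have h4 : Real.log (S0 N Y : ℕ) ≤ y ^ 2 * l ^ 3 / (1 / K) := by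
      rw [div_div_eq_mul_div, div_one]
      calc Real.log (S0 N Y : ℕ) ≤ C1 * (Y : ℝ) ^ 2 * l := h3
        _ ≤ C1 * (4 * y ^ 2) * l ^ 3 := by gcongr
        _ = (y ^ 2 * l ^ 3) * (4 * C1) := by ring
        _ ≤ (y ^ 2 * l ^ 3) * K := by
            apply mul_le_mul_of_nonneg_left _ hyl
            linarith
    have h5 : (S0 N Y : ℝ) ≤ Real.exp (y ^ 2 * l ^ 3 / (1 / K)) :=
      (Real.log_le_iff_le_exp hS).1 h4
    calc (N : ℝ) ≤ (S0 N Y : ℝ) * (D : ℝ) ^ 2 := by exact_mod_cast h2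
      _ ≤ Real.exp (y ^ 2 * l ^ 3 / (1 / K)) * (D : ℝ) ^ 2 :=
          mul_le_mul_of_nonneg_right h5 (by positivity)
      _ = _ := mul_comm _ _

end Pool.Agent.Results.MP_f02ea4_nt.LargePrimeDivisors
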